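import Pool.Agent.L0h58.KL.Top
import Pool.Agent.L0h58.RL.Top

/-!
# One-sided error
-/

set_option autoImplicit false

namespace Pool.Agent.L0h58.KL

open Pool.Agent.L0h58.RL Pool.Agent.L0h58.CA

/-- the parameter of the sampling program for the threshold `1 / 2` -/
def mE0 (P : Prog) : Expr := .sub (.mul (.const 12) (bE P)) (.const 1)

theorem promiseBPL_of_promiseRL {Y N : Set (List Bool)} (h : PromiseRL Y N) : PromiseBPL Y N := by
  obtain ⟨P, hY, hN⟩ := h
  have heval : ∀ W x A v b, (mE0 P).eval W x A v b = 12 * (P.bound x.length + 1) - 1 := by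
    intro W x A v b
    change 12 * (bE P).eval W x A v b - 1 = _
    rw [eval_bE]
  let O : Expr → Expr := fun q => .ite (.add q (.const 1)) (mE0 P) (.const 1) (.const 0)
  have hprob : ∀ x, (simProg (samp P) 0 (fun _ => false) ((samp P).c + 1) (.const 1) (.const 0)
      .len .inp O).prob empty x = (samp P).prob (up (12 * (P.bound x.length + 1) - 1)) x := by
    intro x
    refine simProg_prob _ (conds_oracle (samp P) (up (12 * (P.bound x.length + 1) - 1)) empty O x
      fun v b e => Or.inl ?_)
    change (Expr.ite (.add e (.const 1)) (mE0 P) (.const 1) (.const 0)).eval _ x empty v b = _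
    rw [eval_up, heval]
  have hlt : ∀ x : List Bool, 12 * (P.bound x.length + 1) - 1 < gg P x := by
    intro x
    unfold gg
    omega
  have hm : ∀ x : List Bool, 12 * (P.bound x.length + 1) - 1 < (x.length + 2) ^ dS P := by
    intro x
    refine lt_of_lt_of_le ?_ (k1_le P x)
    refine (hlt x).trans_le ?_
    unfold k1
    exact Nat.le_mul_of_pos_left _ k2_pos
  have hdiv : ∀ x : List Bool, (12 * (P.bound x.length + 1) - 1) / gg P x = 0 := fun x =>
    Nat.div_eq_of_lt (hlt x)
  have hmod : ∀ x : List Bool, (12 * (P.bound x.length + 1) - 1) % gg P x =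
    12 * (P.bound x.length + 1) - 1 := fun x => Nat.mod_eq_of_lt (hlt x)
  refine ⟨simProg (samp P) 0 (fun _ => false) ((samp P).c + 1) (.const 1) (.const 0) .len .inp O,
    fun x hx => ?_, fun x hx => ?_⟩
  · rw [hprob]
    refine samp_ge (hm x) ?_
    rw [hdiv, hmod, Nat.zero_div, Nat.zero_mod, pr_zero]
    refine le_trans (le_of_eq ?_) (hY x hx)
    have h1 : ((12 * (P.bound x.length + 1) - 1 : ℕ) : ℝ) = 12 * ((P.bound x.length : ℝ) + 1) - 1 := by
      rw [Nat.cast_sub (by omega)]
      push_cast
      ring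
    have h2 : (0 : ℝ) ≤ P.bound x.length := Nat.cast_nonneg _
    rw [h1]
    unfold gg
    push_cast
    rw [div_eq_div_iff (by positivity) (by norm_num)]
    ring
  · rw [hprob]
    refine samp_le (hm x) ?_
    rw [hdiv, Nat.zero_div, Nat.zero_mod, pr_zero, hN x hx]
    positivity

theorem advice_same (h : ∀ Y N, PromiseBPL Y N → PromiseLAdv Y N) : Same empty :=
  same_of_promise (fun _ _ hYN => karp_lipton h (promiseBPL_of_promiseRL hYN)) empty

end Pool.Agent.L0h58.KL
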