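import Pool.Agent.L0h58.KL.Samp

/-!
# Calling a program with advice
-/

set_option autoImplicit false

namespace Pool.Agent.L0h58.KL

open Pool.Agent.L0h58.RL Pool.Agent.L0h58.CA

/-- the instance with the number `m` -/
def zz (P : Prog) (x : List Bool) (m : ℕ) : List Bool := enc ((samp P).bound x.length) x (up m)

/-- its length -/
def ln (P : Prog) (n : ℕ) : ℕ := 2 * n + 2 + ((samp P).bound n + 1)

theorem length_zz (P : Prog) (x : List Bool) (m : ℕ) : (zz P x m).length = ln P x.length :=
  length_enc _ _ _

/-- The symbols of the instance. -/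
def syU (S : Prog) (M e : Expr) : Expr :=
  .ite (.add e (.const 1)) (.mul (.const 2) .len)
    (.ite (.const 1) (.mod e (.const 2)) (.const 1) (.inp (.div e (.const 2))))
    (.ite (.add e (.const 1)) (.add (.mul (.const 2) .len) (.const 2)) (.const 0)
      (.ite (.add e (.const 1)) (lenE S)
        (.ite (.add (.sub e (.add (.mul (.const 2) .len) (.const 2))) (.const 1)) M (.const 1)
          (.const 0)) (.const 2)))

theorem eval_syU (S : Prog) {W : ℕ} (x : List Bool) (A : ℕ → Bool) (v : ℕ → ℕ) (b : Bool)
    (M e : Expr) : (syU S M e).eval W x A v b =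
      inputAt (enc (S.bound x.length) x (up (M.eval W x A v b))) (e.eval W x A v b) := by
  rw [inputAt_enc]
  unfold syU
  generalize hi : e.eval W x A v b = i
  by_cases h1 : i < 2 * x.length
  · rw [if_pos h1, eval_ite_pos]
    · by_cases h2 : i % 2 = 1
      · rw [if_pos h2, eval_ite_pos]
        · rfl
        · change 1 ≤ e.eval W x A v b % 2
          omega
      · rw [if_neg h2, eval_ite_neg]
        · change inputAt x (e.eval W x A v b / 2) = _
          rw [hi]
        · change ¬ 1 ≤ e.eval W x A v b % 2
          omega
    · change e.eval W x A v b + 1 ≤ 2 * x.length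
      omega
  · rw [if_neg h1, eval_ite_neg]
    · by_cases h2 : i < 2 * x.length + 2
      · rw [if_pos h2, eval_ite_pos]
        · rfl
        · change e.eval W x A v b + 1 ≤ 2 * x.length + 2
          omega
      · rw [if_neg h2, eval_ite_neg]
        · by_cases h3 : i < 2 * x.length + 2 + (S.bound x.length + 1)
          · rw [if_pos h3, eval_ite_pos]
            · rw [eval_up]
              change (up _ (e.eval W x A v b - (2 * x.length + 2))).toNat = _
              rw [hi]
            · rw [eval_lenE]
              change e.eval W x A v b + 1 ≤ _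
              omega
          · rw [if_neg h3, eval_ite_neg]
            · rfl
            · rw [eval_lenE]
              change ¬ e.eval W x A v b + 1 ≤ _
              omega
        · change ¬ e.eval W x A v b + 1 ≤ 2 * x.length + 2
          omega
    · change ¬ e.eval W x A v b + 1 ≤ 2 * x.length
      omega

/-- `k1` -/
def k1E (P : Prog) : Expr := .mul (.mul (.add (wE P) (.const 2)) (mE P)) (gE P)

section

variable {P D : Prog} {W : ℕ} {x : List Bool} {A : ℕ → Bool} {v : ℕ → ℕ} {b : Bool}

theorem eval_k1E : (k1E P).eval W x A v b = k1 P x := by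
  change ((wE P).eval W x A v b + 2) * (mE P).eval W x A v b * (gE P).eval W x A v b = _
  rw [eval_wE, eval_mE, eval_gE]
  rfl

/-- The answer of `D` to the question `m % k1` with the advice `m / k1`. -/
def F0 (P D : Prog) (x : List Bool) (m : ℕ) : ℕ :=
  if advOut D (min (m / k1 P x) (D.bound (ln P x.length))) (zz P x (m % k1 P x)) ≠ 0 then 1 else 0

theorem bound_ln (P D : Prog) (n : ℕ) :
    D.bound (ln P n) ≤ (n + 2) ^ (((samp P).c + 3) * (D.c + 1)) := by
  have h1 := (samp P).bound_ge n
  have h2 : ln P n + 2 ≤ (n + 2) ^ ((samp P).c + 3) := by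
    have h3 : (n + 2) ^ ((samp P).c + 3) = (samp P).bound n * ((n + 2) * (n + 2)) := by
      unfold Prog.bound
      ring
    rw [h3]
    have h4 : 4 ≤ (n + 2) * (n + 2) := by nlinarith
    have h5 : (samp P).bound n * 4 ≤ (samp P).bound n * ((n + 2) * (n + 2)) :=
      Nat.mul_le_mul_left _ h4
    unfold ln
    omega
  rw [pow_mul]
  exact Nat.pow_le_pow_left h2 _

/-- The loop (with one repetition) which calls `D`. -/
def callOnce (D : Prog) (lE : Expr) (I : Expr → Expr) (V : ℕ → Expr) (g d' : ℕ) : Loop where
  s₁ := .const 1
  s₂ := .orc (.reg 2)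
  L := lE
  C := .const 0
  I := I
  O := fun _ => .const 0
  V := V
  T₀ := .const 0
  N := .const 1
  a := fun k => if k = 0 then .ite (.const 1) (.reg 7) (.const 1) (.const 0) else .const 0
  Out := .reg 4
  c' := d' + 0 + 0 + g + 5

/-- One call of the program `D` with an input and initial contents which can be computed. -/
theorem comp_call (D : Prog) (z : List Bool → ℕ → List Bool) (v₀ : List Bool → ℕ → ℕ → ℕ)
    (lE : Expr) (ℓ : ℕ → ℕ) (I : Expr → Expr) (V : ℕ → Expr) (g d' : ℕ)
    (hlen : ∀ x m, (z x m).length = ℓ x.length)
    (hl : ∀ W x A v b, lE.eval W x A v b = ℓ x.length)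
    (hI : ∀ W x A v b e, (I e).eval W x A v b = inputAt (z x (v 2)) (e.eval W x A v b))
    (hV : ∀ W x A v b i, (V i).eval W x A v b = v₀ x (v 2) i)
    (hv₀ : ∀ x m i, v₀ x m i ≤ D.bound (ℓ x.length))
    (hb : ∀ n, D.bound (ℓ n) ≤ (n + 2) ^ (g + 1)) :
    Comp d' ((callOnce D lE I V g d').prog D) (fun x m =>
      if runFrom D empty (z x m) (v₀ x m) (fun _ => false) (D.bound (ℓ x.length)) 0 ≠ 0
        then 1 else 0) := by
  intro x m hm
  have hbd : ((callOnce D lE I V g d').prog D).bound x.length =
    (x.length + 2) ^ (d' + 0 + 0 + g + 5 + 1) := rfl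
  have htime : m + 1 * (D.bound (ℓ x.length) + 1) + 1 ≤
      (x.length + 2) ^ (d' + 0 + 0 + g + 5 + 1) := time_le hm (by simp) (hb _)
  have hle : (if runFrom D empty (z x m) (v₀ x m) (fun _ => false) (D.bound (ℓ x.length)) 0 ≠ 0
        then 1 else 0) ≤ 1 := by
    split_ifs <;> omega
  have h2 := ((callOnce D lE I V g d').prog D).bound_ge x.length
  have hOK : (callOnce D lE I V g d').OK D (up m) x (fun _ => false) m (ℓ x.length) 1
      (fun _ => z x m) (fun _ => empty) (fun _ => v₀ x m) (fun _ => 0)
      (fun _ => false) (fun J k => if k = 0 ∧ J ≠ 0 then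
        (if runFrom D empty (z x m) (v₀ x m) (fun _ => false) (D.bound (ℓ x.length)) 0 ≠ 0
          then 1 else 0) else 0)
        (if runFrom D empty (z x m) (v₀ x m) (fun _ => false) (D.bound (ℓ x.length)) 0 ≠ 0
          then 1 else 0) :=
    { scan := fun v b h => scan_up v b h
      stop := fun v b h => stop_up (by rw [hbd]; omega) v b h
      lenx := fun _ _ => hlen _ _
      len := by
        intro v b _
        exact hl _ _ _ _ _
      coin := fun _ _ => rfl
      inp := by
        intro v b h2 _ e
        change (I e).eval _ x _ v b = _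
        rw [hI, h2]
      orc := fun _ _ _ _ _ _ => rfl
      ini := by
        intro v b h2 _ i
        change (V i).eval _ x _ v b = _
        rw [hV, h2]
      inile := fun _ _ i => hv₀ x m i
      zero := by
        intro _ _ h
        have := D.bound_ge (ℓ x.length)
        exact absurd h (by omega)
      st := fun _ _ _ _ => rfl
      num := fun _ _ _ => rfl
      acc0 := by
        intro k _
        simp
      accS := by
        intro j hj k hk v b h2 h3 h4 h7
        obtain rfl : j = 0 := by omega
        have h7' : v 7 = runFrom D empty (z x m) (v₀ x m) (fun _ => false)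
            (D.bound (ℓ x.length)) 0 := h7
        change (if k = 0 then Expr.ite (.const 1) (.reg 7) (.const 1) (.const 0)
          else .const 0).eval _ x _ v b = _
        by_cases h0 : k = 0
        · subst h0
          rw [if_pos rfl, if_pos (by simp), ← h7']
          by_cases hr : v 7 = 0
          · rw [if_neg (not_not.2 hr), eval_ite_neg (by
              change ¬ 1 ≤ v 7
              omega)]
            rfl
          · rw [if_pos hr, eval_ite_pos (by
              change 1 ≤ v 7
              omega)]
            rfl
        · rw [if_neg h0, if_neg (by simp [h0])]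
          rfl
      accle := by
        intro j _ k _
        by_cases hc : k = 0 ∧ j ≠ 0
        · rw [if_pos hc]
          omega
        · rw [if_neg hc]
          omega
      out := by
        intro v b h2 h3 h4
        have h40 := h4 0 (by omega)
        rw [if_pos (by simp)] at h40
        exact h40
      time := htime }
  have h := hOK.result
  rw [h]
  exact min_eq_left (by omega)

theorem comp_base (P D : Prog) (d' : ℕ) : ∃ Q : Prog, Comp d' Q (F0 P D) := by
  have h := comp_call D (fun x m => zz P x (m % k1 P x))
    (fun x m => adv (min (m / k1 P x) (D.bound (ln P x.length)))) (lenE (samp P)) (ln P)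
    (syU (samp P) (.mod (.reg 2) (k1E P)))
    (fun i => if i = 1 then capE (.div (.reg 2) (k1E P)) (bdE D.c (lenE (samp P))) else .const 0)
    (((samp P).c + 3) * (D.c + 1)) d' (fun _ _ => length_zz _ _ _)
    (fun _ _ _ _ _ => eval_lenE _ _ _ _ _) ?_ ?_ ?_ ?_
  · refine ⟨_, fun x m hm => (h x m hm).trans ?_⟩
    unfold F0 advOut
    rw [length_zz]
  · intro W x A v b e
    rw [eval_syU]
    change inputAt (enc _ x (up (v 2 % (k1E P).eval _ x _ v b))) _ = _
    rw [eval_k1E]
    rfl
  · intro W x A v b i
    unfold adv
    by_cases hi : i = 1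
    · subst hi
      rw [if_pos rfl, if_pos rfl, eval_capE,
        eval_bdE x _ v b (lenE (samp P)) D (eval_lenE _ _ _ _ _)]
      change min (v 2 / (k1E P).eval _ x _ v b) _ = _
      rw [eval_k1E]
      rfl
    · rw [if_neg hi, if_neg hi]
      rfl
  · intro x m i
    unfold adv
    split_ifs
    · exact min_le_right _ _
    · exact Nat.zero_le _
  · intro n
    exact (bound_ln P D n).trans (Nat.pow_le_pow_right (by omega) (by omega))

end

end Pool.Agent.L0h58.KL
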