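import Pool.Agent.L0h58.KL.Samp
import Mathlib.Algebra.Order.BigOperators.Group.Finset

/-!
# Local consistency checks
-/

set_option autoImplicit false

namespace Pool.Agent.L0h58.KL

open Pool.Agent.L0h58.RL Pool.Agent.L0h58.CA

/-- the next configuration -/
def nxtE (P : Prog) (u : Expr) (b : Bool) : Expr :=
  cdE (bE P) (P.code.map fun e => capE (dg (bE P) u b.toNat e) (wE P))

section

variable {P : Prog} {W : ℕ} {x : List Bool} {A : ℕ → Bool} {v : ℕ → ℕ} {b : Bool}

theorem eval_nxtE {u : ℕ} {U : Expr} (c : Bool) (hU : U.eval W x A v b = u) :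
    (nxtE P U c).eval W x A v b = nxt P x u c := by
  unfold nxtE
  rw [eval_cdE, eval_bE, List.map_map]
  unfold nxt
  congr 1
  refine List.map_congr_left fun e _ => ?_
  simp only [Function.comp]
  rw [eval_capE, eval_wE, eval_dg (W := P.bound x.length) eval_bE hU]

end

variable (P : Prog) (φ : List Bool → ℕ → ℕ) (Na : ℕ → ℕ) (x : List Bool)

/-- the estimate of the candidate `m / k2` for the configuration and time `m % k2` -/
def F1 (m : ℕ) : ℕ :=
  ∑ j ∈ Finset.range (24 * (P.bound x.length + 1)), φ x (m * gg P x + j)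

/-- The local check: the number of errors. -/
def chk (m q₀ q₁ q₂ : ℕ) : ℕ :=
  if m / mm P x % (P.bound x.length + 2) + 1 ≤ P.bound x.length then
    (if 2 * q₀ ≤ q₁ + q₂ + 4 then
      (if q₁ + q₂ ≤ 2 * q₀ + 4 then
        (if 1 ≤ m / mm P x % (P.bound x.length + 2) + m % mm P x then 0
          else (if gg P x ≤ 2 * q₀ then 0 else 1)) else 1) else 1)
  else (if m / mm P x % (P.bound x.length + 2) ≤ P.bound x.length then
    (if 1 ≤ m % mm P x % (P.bound x.length + 1) then (if gg P x ≤ q₀ then 0 else 1)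
      else (if q₀ ≤ 0 then 0 else 1)) else 0)

/-- the arguments -/
def arg (m j : ℕ) : ℕ :=
  if j ≤ 0 then m else if j ≤ 1 then m - m % mm P x + mm P x + nxt P x (m % mm P x) false
    else m - m % mm P x + mm P x + nxt P x (m % mm P x) true

/-- the local check -/
def F2 (m : ℕ) : ℕ :=
  chk P x m (F1 P φ x (arg P x m 0)) (F1 P φ x (arg P x m 1)) (F1 P φ x (arg P x m 2))

/-- the number of errors for the candidate `a` -/
def F3 (a : ℕ) : ℕ :=
  ∑ c ∈ Finset.range ((P.bound x.length + 2) * (P.bound x.length + 1) ^ P.code.length),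
    F2 P φ x (a * k2 P x + c)

/-- the number of consistent candidates -/
def F4 (_ : ℕ) : ℕ :=
  ∑ a ∈ Finset.range (Na x.length), (1 - F3 P φ x a)

/-! ### Expressions -/

/-- the time -/
def tY (P : Prog) : Expr := .mod (.div (.reg 2) (mE P)) (.add (wE P) (.const 2))

/-- the configuration -/
def uY (P : Prog) : Expr := .mod (.reg 2) (mE P)

/-- the check -/
def chkE (P : Prog) : Expr :=
  .ite (.add (tY P) (.const 1)) (wE P)
    (.ite (.mul (.const 2) (.reg 4)) (.add (.add (.reg 5) (.reg 6)) (.const 4))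
      (.ite (.add (.reg 5) (.reg 6)) (.add (.mul (.const 2) (.reg 4)) (.const 4))
        (.ite (.const 1) (.add (tY P) (uY P)) (.const 0)
          (.ite (gE P) (.mul (.const 2) (.reg 4)) (.const 0) (.const 1))) (.const 1)) (.const 1))
    (.ite (tY P) (wE P)
      (.ite (.const 1) (.mod (uY P) (bE P)) (.ite (gE P) (.reg 4) (.const 0) (.const 1))
        (.ite (.reg 4) (.const 0) (.const 0) (.const 1))) (.const 0))

/-- the arguments -/
def argE (P : Prog) : Expr :=
  .ite (.reg 3) (.const 0) (.reg 2) (.ite (.reg 3) (.const 1)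
    (.add (.add (.sub (.reg 2) (uY P)) (mE P)) (nxtE P (uY P) false))
    (.add (.add (.sub (.reg 2) (uY P)) (mE P)) (nxtE P (uY P) true)))

section

variable {P x} {W : ℕ} {A : ℕ → Bool} {v : ℕ → ℕ} {b : Bool}

theorem eval_tY : (tY P).eval W x A v b = v 2 / mm P x % (P.bound x.length + 2) := by
  change v 2 / (mE P).eval W x A v b % ((wE P).eval W x A v b + 2) = _
  rw [eval_mE, eval_wE]

theorem eval_uY : (uY P).eval W x A v b = v 2 % mm P x := by
  change v 2 % (mE P).eval W x A v b = _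
  rw [eval_mE]

theorem eval_chkE : (chkE P).eval W x A v b = chk P x (v 2) (v 4) (v 5) (v 6) := by
  unfold chkE chk
  simp only [Expr.eval, eval_tY, eval_uY, eval_wE, eval_bE, eval_gE] <;> rfl

theorem eval_argE : (argE P).eval W x A v b = arg P x (v 2) (v 3) := by
  unfold argE arg
  simp only [Expr.eval, eval_uY, eval_mE, eval_nxtE (P := P) false eval_uY,
    eval_nxtE (P := P) true eval_uY]

end

/-! ### Programs -/

/-- exponents -/
def d2 (e : ℕ) : ℕ := e + ((P.c + 3) + (P.c + 2) * P.code.length)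

/-- exponents -/
def d1 (e : ℕ) : ℕ := d2 P e + (P.c + 2) * P.code.length + 2

/-- exponents -/
def d0 (e : ℕ) : ℕ := d1 P e + (P.c + 7)

variable {φ}

theorem F1_le (hφ : ∀ x m, φ x m ≤ 1) (m : ℕ) : F1 P φ x m ≤ gg P x := by
  unfold F1
  calc _ ≤ ∑ j ∈ Finset.range (24 * (P.bound x.length + 1)), 1 :=
        Finset.sum_le_sum fun j _ => hφ x _
    _ = _ := by rw [Finset.sum_const, Finset.card_range, smul_eq_mul, mul_one]; rfl

theorem chk_le (m q₀ q₁ q₂ : ℕ) : chk P x m q₀ q₁ q₂ ≤ 1 := by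
  unfold chk
  split_ifs <;> omega

theorem comp_F1 (hφ : ∀ x m, φ x m ≤ 1) {e : ℕ} {Q : Prog} (hQ : Comp (d0 P e) Q φ) :
    ∃ Q : Prog, Comp (d1 P e) Q (fun x m => F1 P φ x m) := by
  refine comp_sum hQ (d1 P e) (P.c + 7) 0
    (.add (.mul (.reg 2) (gE P)) (.reg 3)) (gE P) (.reg 7) (fun x m j => m * gg P x + j)
    (fun n => 24 * (P.bound n + 1)) (fun _ _ _ r => r) ?_ ?_ ?_ ?_ ?_ ?_
  · intro W x A v b
    simp only [Expr.eval, eval_gE]
  · intro W x A v b
    rw [eval_gE]
    rfl
  · intro W x A v b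
    rfl
  · intro x m j hm hj
    have h1 := gg_le P x
    have h2 : (m + 1) * gg P x ≤ (x.length + 2) ^ d1 P e * (x.length + 2) ^ (P.c + 7) :=
      Nat.mul_le_mul hm h1
    rw [← pow_add] at h2
    change j < gg P x at hj
    change m * gg P x + j < (x.length + 2) ^ (d1 P e + (P.c + 7))
    nlinarith
  · intro n
    have := gg_le P (List.replicate n true)
    rw [gg, List.length_replicate] at this
    exact this
  · intro x m j _ _
    exact (hφ x _).trans (by simp)

theorem comp_F2 (hφ : ∀ x m, φ x m ≤ 1) {e : ℕ} {Q : Prog} (hQ : Comp (d0 P e) Q φ) :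
    ∃ Q : Prog, Comp (d2 P e) Q (fun x m => F2 P φ x m) := by
  obtain ⟨Q, hQ⟩ := comp_F1 P hφ hQ
  refine comp_three hQ (d2 P e) (argE P) (chkE P) (fun x m j => arg P x m j)
    (fun x m a b c => chk P x m a b c) ?_ ?_ ?_ ?_
  · intro W x A v b
    exact eval_argE
  · intro W x A v b
    exact eval_chkE
  · intro x m j hm hj
    have h1 := mm_le P x
    have h2 : ∀ b, nxt P x (m % mm P x) b < mm P x := fun b => nxt_lt P x _ b
    have h3 : arg P x m j ≤ m + 2 * mm P x := by
      have hf := h2 false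
      have ht := h2 true
      have hmod : m % mm P x ≤ m := Nat.mod_le _ _
      unfold arg
      split_ifs <;> omega
    have h4 : (x.length + 2) ^ d2 P e ≤
        (x.length + 2) ^ (d2 P e + (P.c + 2) * P.code.length) :=
      Nat.pow_le_pow_right (by omega) (by omega)
    have h5 : (x.length + 2) ^ ((P.c + 2) * P.code.length) ≤
        (x.length + 2) ^ (d2 P e + (P.c + 2) * P.code.length) :=
      Nat.pow_le_pow_right (by omega) (by omega)
    have h6 : (x.length + 2) ^ d1 P e = (x.length + 2) ^ (d2 P e + (P.c + 2) * P.code.length) *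
        ((x.length + 2) * (x.length + 2)) := by
      unfold d1
      ring
    have h7 : 4 ≤ (x.length + 2) * (x.length + 2) := by nlinarith
    rw [h6]
    calc arg P x m j ≤ m + 2 * mm P x := h3
      _ < (x.length + 2) ^ (d2 P e + (P.c + 2) * P.code.length) * 4 := by omega
      _ ≤ _ := Nat.mul_le_mul_left _ h7
  · intro x m a b c
    exact chk_le P x m a b c

theorem comp_F3 (hφ : ∀ x m, φ x m ≤ 1) {e : ℕ} {Q : Prog} (hQ : Comp (d0 P e) Q φ) :
    ∃ Q : Prog, Comp e Q (fun x m => F3 P φ x m) := by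
  obtain ⟨Q, hQ⟩ := comp_F2 P hφ hQ
  have hk : ∀ n, (P.bound n + 2) * (P.bound n + 1) ^ P.code.length ≤
      (n + 2) ^ ((P.c + 3) + (P.c + 2) * P.code.length) := by
    intro n
    have := k2_le P (List.replicate n true)
    rw [k2, mm, List.length_replicate] at this
    exact this
  refine comp_sum hQ e ((P.c + 3) + (P.c + 2) * P.code.length) 0
    (.add (.mul (.reg 2) (.mul (.add (wE P) (.const 2)) (mE P))) (.reg 3))
    (.mul (.add (wE P) (.const 2)) (mE P)) (.reg 7) (fun x m j => m * k2 P x + j)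
    (fun n => (P.bound n + 2) * (P.bound n + 1) ^ P.code.length) (fun _ _ _ r => r) ?_ ?_ ?_ ?_
    hk ?_
  · intro W x A v b
    simp only [Expr.eval, eval_wE, eval_mE]
    rfl
  · intro W x A v b
    simp only [Expr.eval, eval_wE, eval_mE]
    rfl
  · intro W x A v b
    rfl
  · intro x m j hm hj
    have h1 := k2_le P x
    have h2 : (m + 1) * k2 P x ≤ (x.length + 2) ^ e *
        (x.length + 2) ^ ((P.c + 3) + (P.c + 2) * P.code.length) := Nat.mul_le_mul hm h1
    rw [← pow_add] at h2
    change j < k2 P x at hj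
    change m * k2 P x + j < (x.length + 2) ^ (e + ((P.c + 3) + (P.c + 2) * P.code.length))
    nlinarith
  · intro x m j _ _
    exact (chk_le P x _ _ _ _).trans (by simp)

theorem comp_F4 (hφ : ∀ x m, φ x m ≤ 1) {e : ℕ} {Q : Prog} (hQ : Comp (d0 P e) Q φ)
    {Na : ℕ → ℕ} (naE : Expr) (hna : ∀ W x A v b, naE.eval W x A v b = Na x.length)
    (hNa : ∀ n, Na n ≤ (n + 2) ^ e) :
    ∃ Q : Prog, Comp 0 Q (fun x m => F4 P φ Na x m) := by
  obtain ⟨Q, hQ⟩ := comp_F3 P hφ hQ
  refine comp_sum hQ 0 e 0 (.reg 3) naE (.sub (.const 1) (.reg 7)) (fun _ _ j => j)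
    Na (fun _ _ _ r => 1 - r) ?_ hna ?_ ?_ hNa ?_
  · intro W x A v b
    rfl
  · intro W x A v b
    rfl
  · intro x m j hm hj
    exact hj.trans_le (hNa _)
  · intro x m j _ _
    simp

end Pool.Agent.L0h58.KL
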