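import Pool.Agent.L0h58.KL.Loop
import Pool.Agent.L0h58.RL.Tab

/-!
# Functions computable in logarithmic space
-/

set_option autoImplicit false

namespace Pool.Agent.L0h58.KL

open Pool.Agent.L0h58.RL

/-- The oracle by which the number `m` is given to a program. -/
def up (m : ℕ) : ℕ → Bool := fun i => decide (i < m)

/-- The program `P` computes the number `F x m` from `x` and `m`, if `m < (|x| + 2) ^ d`. -/
def Comp (d : ℕ) (P : Prog) (F : List Bool → ℕ → ℕ) : Prop :=
  ∀ x m, m < (x.length + 2) ^ d →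
    P.run (up m) x (fun _ => false) (P.bound x.length) 0 = F x m

/-- The loop in which the function `F` is called. -/
def callLoop (P : Prog) (d' g g' : ℕ) (pE nE : Expr) (aE : ℕ → Expr) (outE : Expr) : Loop where
  s₁ := .const 1
  s₂ := .orc (.reg 2)
  L := .len
  C := .const 0
  I := .inp
  O := fun q => .ite (.add q (.const 1)) pE (.const 1) (.const 0)
  V := fun _ => .const 0
  T₀ := .const 0
  N := nE
  a := aE
  Out := outE
  c' := d' + g + g' + P.c + 5

theorem up_toNat {m i : ℕ} : 1 ≤ (up m i).toNat ↔ i < m := by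
  unfold up
  by_cases h : i < m <;> simp [h]

theorem eval_up {W : ℕ} {x : List Bool} {A : ℕ → Bool} {v : ℕ → ℕ} {b : Bool} (e f : Expr) :
    (Expr.ite (.add e (.const 1)) f (.const 1) (.const 0)).eval W x A v b =
      (up (f.eval W x A v b) (e.eval W x A v b)).toNat := by
  unfold up
  by_cases h : e.eval W x A v b < f.eval W x A v b
  · rw [decide_eq_true h, eval_ite_pos (by exact h)]
    rfl
  · rw [decide_eq_false h, eval_ite_neg (by exact h)]
    rfl

theorem scan_up {m W' : ℕ} {x' : List Bool} (v : ℕ → ℕ) (b : Bool)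
    (h : v 2 < m) : (Expr.const 1).eval W' x' (up m) v b ≤
      (Expr.orc (.reg 2)).eval W' x' (up m) v b := by
  change 1 ≤ (up m (min (v 2) W')).toNat
  rw [up_toNat]
  exact (min_le_left _ _).trans_lt h

theorem stop_up {m W' : ℕ} {x' : List Bool} (hm : m ≤ W') (v : ℕ → ℕ) (b : Bool)
    (h : v 2 = m) : ¬ (Expr.const 1).eval W' x' (up m) v b ≤
      (Expr.orc (.reg 2)).eval W' x' (up m) v b := by
  change ¬ 1 ≤ (up m (min (v 2) W')).toNat
  rw [up_toNat, h, min_eq_left hm]
  exact lt_irrefl _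

/-- time bound -/
theorem time_le {n m N W d' g g' c : ℕ} (hm : m < (n + 2) ^ d') (hN : N ≤ (n + 2) ^ g)
    (hW : W ≤ (n + 2) ^ (c + 1)) :
    m + N * (W + 1) + 1 ≤ (n + 2) ^ (d' + g + g' + c + 5 + 1) := by
  have h1 : W + 1 ≤ (n + 2) ^ (c + 2) := by
    rw [pow_succ]
    have : 1 ≤ (n + 2) ^ (c + 1) := Nat.one_le_pow _ _ (by omega)
    nlinarith
  have h2 : N * (W + 1) ≤ (n + 2) ^ (g + (c + 2)) := by
    rw [pow_add]
    exact Nat.mul_le_mul hN h1
  have h3 : (n + 2) ^ d' ≤ (n + 2) ^ (d' + g + g' + c + 5) :=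
    Nat.pow_le_pow_right (by omega) (by omega)
  have h4 : (n + 2) ^ (g + (c + 2)) ≤ (n + 2) ^ (d' + g + g' + c + 5) :=
    Nat.pow_le_pow_right (by omega) (by omega)
  rw [pow_succ]
  nlinarith

theorem comp_loop {d : ℕ} {P : Prog} {F : List Bool → ℕ → ℕ} (hP : Comp d P F) (d' g g' : ℕ)
    (pE nE : Expr) (aE : ℕ → Expr) (outE : Expr) (p : List Bool → ℕ → ℕ → ℕ) (Nn : ℕ → ℕ)
    (α : List Bool → ℕ → ℕ → ℕ → ℕ) (o : List Bool → ℕ → ℕ)
    (hp : ∀ W x A v b, pE.eval W x A v b = p x (v 2) (v 3))
    (hn : ∀ W x A v b, nE.eval W x A v b = Nn x.length)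
    (hplt : ∀ x m j, m < (x.length + 2) ^ d' → j < Nn x.length →
      p x m j < (x.length + 2) ^ d)
    (hNle : ∀ n, Nn n ≤ (n + 2) ^ g)
    (hα0 : ∀ x m k, k < 3 → α x m 0 k = 0)
    (hαS : ∀ W x A v b k, k < 3 → v 2 < (x.length + 2) ^ d' → v 3 < Nn x.length →
      (∀ l < 3, v (l + 4) = α x (v 2) (v 3) l) → v 7 = F x (p x (v 2) (v 3)) →
      (aE k).eval W x A v b = α x (v 2) (v 3 + 1) k)
    (hαle : ∀ x m j k, m < (x.length + 2) ^ d' → j ≤ Nn x.length → k < 3 →
      α x m j k ≤ (x.length + 2) ^ (d' + g + g' + P.c + 5 + 1))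
    (ho : ∀ W x A v b, v 2 < (x.length + 2) ^ d' → v 3 = Nn x.length →
      (∀ l < 3, v (l + 4) = α x (v 2) (v 3) l) → outE.eval W x A v b = o x (v 2))
    (hole : ∀ x m, m < (x.length + 2) ^ d' →
      o x m ≤ (x.length + 2) ^ (d' + g + g' + P.c + 5 + 1)) :
    Comp d' ((callLoop P d' g g' pE nE aE outE).prog P) o := by
  intro x m hm
  have hbd : ((callLoop P d' g g' pE nE aE outE).prog P).bound x.length =
    (x.length + 2) ^ (d' + g + g' + P.c + 5 + 1) := rfl
  have htime : m + Nn x.length * (P.bound x.length + 1) + 1 ≤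
      (x.length + 2) ^ (d' + g + g' + P.c + 5 + 1) := time_le hm (hNle x.length) le_rfl
  have hOK : (callLoop P d' g g' pE nE aE outE).OK P (up m) x (fun _ => false) m x.length
      (Nn x.length) (fun _ => x) (fun j => up (p x m j)) (fun _ _ => 0) (fun _ => 0)
      (fun _ => false) (α x m) (o x m) :=
    { scan := fun v b h => scan_up v b h
      stop := fun v b h => stop_up (by rw [hbd]; omega) v b h
      lenx := fun _ _ => rfl
      len := fun _ _ _ => rfl
      coin := fun _ _ => rfl
      inp := fun _ _ _ _ _ => rfl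
      orc := by
        intro v b h2 h3 e he
        change (Expr.ite (.add e (.const 1)) pE (.const 1) (.const 0)).eval _ x (up m) v b = _
        rw [eval_up, hp, h2]
      ini := fun _ _ _ _ _ => rfl
      inile := fun _ _ _ => Nat.zero_le _
      zero := fun _ _ _ _ _ => rfl
      st := fun _ _ _ _ => rfl
      num := fun v b _ => hn _ _ _ _ _
      acc0 := fun k hk => hα0 x m k hk
      accS := by
        intro j hj k hk v b h2 h3 h4 h7
        have h7' : v 7 = F x (p x m j) := by
          rw [h7]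
          unfold res
          change runFrom P (up (p x m j)) x (fun _ => 0) (fun _ => false) (P.bound x.length - 0) 0 = _
          rw [Nat.sub_zero, from_zero]
          exact hP x _ (hplt x m j hm hj)
        have := hαS (((callLoop P d' g g' pE nE aE outE).prog P).bound x.length) x (up m) v b k hk
          (by rw [h2]; exact hm) (by rw [h3]; exact hj) (fun l hl => by rw [h4 l hl, h2, h3])
          (by rw [h7', h2, h3])
        rw [h2, h3] at this
        exact this
      accle := fun j hj k hk => hαle x m j k hm hj hk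
      out := by
        intro v b h2 h3 h4
        have := ho (((callLoop P d' g g' pE nE aE outE).prog P).bound x.length) x (up m) v b
          (by rw [h2]; exact hm) h3 (fun l hl => by rw [h4 l hl, h2, h3])
        rw [h2] at this
        exact this
      time := htime }
  have h := hOK.result
  rw [h]
  exact min_eq_left (hole x m hm)

/-- sums -/
theorem comp_sum {d : ℕ} {P : Prog} {F : List Bool → ℕ → ℕ} (hP : Comp d P F) (d' g g' : ℕ)
    (pE nE hE : Expr) (p : List Bool → ℕ → ℕ → ℕ) (Nn : ℕ → ℕ)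
    (f : List Bool → ℕ → ℕ → ℕ → ℕ)
    (hp : ∀ W x A v b, pE.eval W x A v b = p x (v 2) (v 3))
    (hn : ∀ W x A v b, nE.eval W x A v b = Nn x.length)
    (hh : ∀ W x A v b, hE.eval W x A v b = f x (v 2) (v 3) (v 7))
    (hplt : ∀ x m j, m < (x.length + 2) ^ d' → j < Nn x.length →
      p x m j < (x.length + 2) ^ d)
    (hNle : ∀ n, Nn n ≤ (n + 2) ^ g)
    (hfle : ∀ x m j, m < (x.length + 2) ^ d' → j < Nn x.length →
      f x m j (F x (p x m j)) ≤ (x.length + 2) ^ g') :
    ∃ Q : Prog, Comp d' Q (fun x m => ∑ j ∈ Finset.range (Nn x.length),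
      f x m j (F x (p x m j))) := by
  have hle : ∀ x m J, m < (x.length + 2) ^ d' → J ≤ Nn x.length →
      (∑ j ∈ Finset.range J, f x m j (F x (p x m j))) ≤
        (x.length + 2) ^ (d' + g + g' + P.c + 5 + 1) := by
    intro x m J hm hJ
    calc (∑ j ∈ Finset.range J, f x m j (F x (p x m j)))
        ≤ ∑ j ∈ Finset.range J, (x.length + 2) ^ g' := by
          refine Finset.sum_le_sum fun j hj => hfle x m j hm ?_
          rw [Finset.mem_range] at hj
          omega
      _ = J * (x.length + 2) ^ g' := by rw [Finset.sum_const, Finset.card_range, smul_eq_mul]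
      _ ≤ (x.length + 2) ^ g * (x.length + 2) ^ g' :=
          Nat.mul_le_mul_right _ (hJ.trans (hNle _))
      _ = (x.length + 2) ^ (g + g') := (pow_add _ _ _).symm
      _ ≤ _ := Nat.pow_le_pow_right (by omega) (by omega)
  refine ⟨_, comp_loop hP d' g g' pE nE
    (fun k => if k = 0 then .add (.reg 4) hE else .const 0) (.reg 4) p Nn
    (fun x m J k => if k = 0 then ∑ j ∈ Finset.range J, f x m j (F x (p x m j)) else 0)
    (fun x m => ∑ j ∈ Finset.range (Nn x.length), f x m j (F x (p x m j)))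
    hp hn hplt hNle ?_ ?_ ?_ ?_ ?_⟩
  · intro x m k _
    simp
  · intro W x A v b k hk h2 h3 h4 h7
    by_cases h0 : k = 0
    · subst h0
      rw [if_pos rfl, if_pos rfl]
      change v 4 + hE.eval W x A v b = _
      have := h4 0 (by omega)
      rw [if_pos rfl] at this
      rw [hh, Finset.sum_range_succ, ← h7, ← this]
    · rw [if_neg h0, if_neg h0]
      rfl
  · intro x m j k hm hj hk
    split_ifs
    · exact hle x m j hm hj
    · exact Nat.zero_le _
  · intro W x A v b h2 h3 h4
    have := h4 0 (by omega)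
    rw [if_pos rfl, h3] at this
    exact this
  · intro x m hm
    exact hle x m _ hm le_rfl

/-- three values -/
theorem comp_three {d : ℕ} {P : Prog} {F : List Bool → ℕ → ℕ} (hP : Comp d P F) (d' : ℕ)
    (pE outE : Expr) (p : List Bool → ℕ → ℕ → ℕ)
    (f : List Bool → ℕ → ℕ → ℕ → ℕ → ℕ)
    (hp : ∀ W x A v b, pE.eval W x A v b = p x (v 2) (v 3))
    (ho : ∀ W x A v b, outE.eval W x A v b = f x (v 2) (v 4) (v 5) (v 6))
    (hplt : ∀ x m j, m < (x.length + 2) ^ d' → j < 3 → p x m j < (x.length + 2) ^ d)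
    (hfle : ∀ x m a b c, f x m a b c ≤ 1) :
    ∃ Q : Prog, Comp d' Q (fun x m => f x m (F x (p x m 0)) (F x (p x m 1)) (F x (p x m 2))) := by
  refine ⟨_, comp_loop hP d' 2 0 pE (.const 3)
    (fun k => .ite (.reg 3) (.const k) (.ite (.const k) (.reg 3) (.reg 7) (.reg (k + 4)))
      (.reg (k + 4))) outE p (fun _ => 3)
    (fun x m J k => if k < J then F x (p x m k) else 0)
    (fun x m => f x m (F x (p x m 0)) (F x (p x m 1)) (F x (p x m 2)))
    hp (fun _ _ _ _ _ => rfl) hplt ?_ ?_ ?_ ?_ ?_ ?_⟩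
  · intro n
    calc 3 ≤ 2 ^ 2 := by norm_num
      _ ≤ (n + 2) ^ 2 := Nat.pow_le_pow_left (by omega) _
  · intro x m k _
    rw [if_neg (Nat.not_lt_zero _)]
  · intro W x A v b k hk h2 h3 h4 h7
    rcases lt_trichotomy (v 3) k with h | h | h
    · rw [eval_ite_pos (by exact h.le), eval_ite_neg (by exact not_le.2 h), if_neg (by omega)]
      change v (k + 4) = 0
      rw [h4 k hk, if_neg (by omega)]
    · rw [eval_ite_pos (by exact h.le), eval_ite_pos (by exact h.ge), if_pos (by omega)]
      change v 7 = _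
      rw [h7, h]
    · rw [eval_ite_neg (by exact not_le.2 h), if_pos (by omega)]
      change v (k + 4) = _
      rw [h4 k hk, if_pos h]
  · intro x m j k hm hj hk
    split_ifs with h
    · have h1 := hP x (p x m k) (hplt x m k hm (by omega))
      have h2 := P.run_le (up (p x m k)) x (fun _ => false) (P.bound x.length) 0
      rw [← h1]
      refine h2.trans ?_
      exact Nat.pow_le_pow_right (by omega) (by omega)
    · exact Nat.zero_le _
  · intro W x A v b h2 h3 h4
    have e0 := h4 0 (by omega)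
    have e1 := h4 1 (by omega)
    have e2 := h4 2 (by omega)
    rw [h3, if_pos (by omega)] at e0 e1 e2
    rw [ho]
    change f x (v 2) (v (0 + 4)) (v (1 + 4)) (v (2 + 4)) = _
    rw [e0, e1, e2]
  · intro x m _
    exact (hfle _ _ _ _ _).trans (Nat.one_le_pow _ _ (by omega))

end Pool.Agent.L0h58.KL
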