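import Pool.Agent.L0h58.KL.Check
import Mathlib.Algebra.Order.Floor.Semiring
import Mathlib.Algebra.Order.Archimedean.Real.Basic

/-!
# Lists of candidates

If one of polynomially many candidates answers all relevant questions correctly then the problem can be
solved.
-/

set_option autoImplicit false

namespace Pool.Agent.L0h58.KL

open Pool.Agent.L0h58.RL Pool.Agent.L0h58.CA

/-! ### Counting thresholds -/

theorem sum_bounds {s : ℕ → ℕ} {G : ℕ} {p : ℝ} (hs : ∀ j, s j ≤ 1) (hp0 : 0 ≤ p) (hp1 : p ≤ 1)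
    (h1 : ∀ j < G, (j : ℝ) + 1 ≤ G * p → s j = 1) (h0 : ∀ j < G, (G : ℝ) * p ≤ j → s j = 0) :
    ⌊(G : ℝ) * p⌋₊ ≤ ∑ j ∈ Finset.range G, s j ∧ ∑ j ∈ Finset.range G, s j ≤ ⌈(G : ℝ) * p⌉₊ := by
  have hG : (0 : ℝ) ≤ G := Nat.cast_nonneg _
  have hGp : (G : ℝ) * p ≤ G := by nlinarith
  have hf : ⌊(G : ℝ) * p⌋₊ ≤ G := by
    have := Nat.floor_le_floor hGp
    rwa [Nat.floor_natCast] at this
  have hc : ⌈(G : ℝ) * p⌉₊ ≤ G := Nat.ceil_le.2 hGp
  constructor
  · calc ⌊(G : ℝ) * p⌋₊ = ∑ j ∈ Finset.range ⌊(G : ℝ) * p⌋₊, 1 := by simp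
      _ = ∑ j ∈ Finset.range ⌊(G : ℝ) * p⌋₊, s j := by
          refine Finset.sum_congr rfl fun j hj => ?_
          rw [Finset.mem_range] at hj
          refine (h1 j (hj.trans_le hf) ?_).symm
          have h2 : ((⌊(G : ℝ) * p⌋₊ : ℕ) : ℝ) ≤ G * p := Nat.floor_le (by positivity)
          have h3 : ((j + 1 : ℕ) : ℝ) ≤ (⌊(G : ℝ) * p⌋₊ : ℕ) := by exact_mod_cast hj
          push_cast at h3
          linarith
      _ ≤ ∑ j ∈ Finset.range G, s j :=
          Finset.sum_le_sum_of_subset (Finset.range_mono hf)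
  · calc ∑ j ∈ Finset.range G, s j = ∑ j ∈ Finset.range ⌈(G : ℝ) * p⌉₊, s j := by
          refine (Finset.sum_subset (Finset.range_mono hc) fun j hj hj' => ?_).symm
          rw [Finset.mem_range] at hj hj'
          refine h0 j hj ?_
          have h2 : (G : ℝ) * p ≤ (⌈(G : ℝ) * p⌉₊ : ℕ) := Nat.le_ceil _
          have h3 : ((⌈(G : ℝ) * p⌉₊ : ℕ) : ℝ) ≤ j := by exact_mod_cast not_lt.1 hj'
          linarith
      _ ≤ ∑ j ∈ Finset.range ⌈(G : ℝ) * p⌉₊, 1 := Finset.sum_le_sum fun j _ => hs j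
      _ = _ := by simp

theorem ex_nonneg_le_one (T : ℕ) (g : (ℕ → Bool) → ℝ) (h : ∀ r, g r = 0 ∨ g r = 1) :
    0 ≤ Ex T g ∧ Ex T g ≤ 1 := by
  constructor
  · rw [← ex_const T 0]
    exact ex_mono _ _ _ fun r => by rcases h r with h | h <;> rw [h]; norm_num
  · rw [← ex_const T 1]
    exact ex_mono _ _ _ fun r => by rcases h r with h | h <;> rw [h]; norm_num

section

variable {P : Prog} {φ : List Bool → ℕ → ℕ} {Na : ℕ → ℕ} {x : List Bool}

theorem pr_bounds (t u : ℕ) : 0 ≤ pr P x t u ∧ pr P x t u ≤ 1 :=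
  ex_nonneg_le_one _ _ (ff_01 P x t u)

/-! ### Decoding of the parameters -/

theorem k2_pos : 0 < k2 P x := Nat.mul_pos (Nat.succ_pos _) (mm_pos P x)

theorem k1_pos : 0 < k1 P x := Nat.mul_pos k2_pos (gg_pos P x)

theorem code_lt {t u : ℕ} (ht : t < P.bound x.length + 2) (hu : u < mm P x) :
    t * mm P x + u < k2 P x := by
  unfold k2
  have : (t + 1) * mm P x ≤ (P.bound x.length + 2) * mm P x := Nat.mul_le_mul_right _ ht
  nlinarith

theorem code_mod (a : ℕ) {t u : ℕ} (hu : u < mm P x) :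
    (a * k2 P x + (t * mm P x + u)) % mm P x = u := by
  have e : a * k2 P x + (t * mm P x + u) = u + mm P x * (a * (P.bound x.length + 2) + t) := by
    unfold k2
    ring
  rw [e, Nat.add_mul_mod_self_left, Nat.mod_eq_of_lt hu]

theorem code_div (a : ℕ) {t u : ℕ} (ht : t < P.bound x.length + 2) (hu : u < mm P x) :
    (a * k2 P x + (t * mm P x + u)) / mm P x % (P.bound x.length + 2) = t := by
  have e : a * k2 P x + (t * mm P x + u) = u + mm P x * (a * (P.bound x.length + 2) + t) := by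
    unfold k2
    ring
  rw [e, Nat.add_mul_div_left _ _ (mm_pos P x), Nat.div_eq_of_lt hu, Nat.zero_add,
    Nat.mul_add_mod_self_right, Nat.mod_eq_of_lt ht]

theorem arg_one (a : ℕ) {t u : ℕ} (hu : u < mm P x) :
    arg P x (a * k2 P x + (t * mm P x + u)) 1 =
      a * k2 P x + ((t + 1) * mm P x + nxt P x u false) := by
  unfold arg
  rw [if_neg (by omega), if_pos le_rfl, code_mod a hu]
  have : (t + 1) * mm P x = t * mm P x + mm P x := by ring
  omega

theorem arg_two (a : ℕ) {t u : ℕ} (hu : u < mm P x) :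
    arg P x (a * k2 P x + (t * mm P x + u)) 2 =
      a * k2 P x + ((t + 1) * mm P x + nxt P x u true) := by
  unfold arg
  rw [if_neg (by omega), if_neg (by omega), code_mod a hu]
  have : (t + 1) * mm P x = t * mm P x + mm P x := by ring
  omega

/-- the estimate -/
def qq (P : Prog) (φ : List Bool → ℕ → ℕ) (x : List Bool) (a t u : ℕ) : ℕ :=
  F1 P φ x (a * k2 P x + (t * mm P x + u))

theorem F2_eq (a : ℕ) {t u : ℕ} (hu : u < mm P x) : F2 P φ x (a * k2 P x + (t * mm P x + u)) =
    chk P x (a * k2 P x + (t * mm P x + u)) (qq P φ x a t u)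
      (qq P φ x a (t + 1) (nxt P x u false)) (qq P φ x a (t + 1) (nxt P x u true)) := by
  unfold F2 qq
  rw [arg_one a hu, arg_two a hu]
  rfl

theorem chk_succ (a : ℕ) {t u : ℕ} (ht : t < P.bound x.length) (hu : u < mm P x)
    (q₀ q₁ q₂ : ℕ) : chk P x (a * k2 P x + (t * mm P x + u)) q₀ q₁ q₂ = 0 ↔
      2 * q₀ ≤ q₁ + q₂ + 4 ∧ q₁ + q₂ ≤ 2 * q₀ + 4 ∧ (t + u = 0 → gg P x ≤ 2 * q₀) := by
  unfold chk
  rw [code_div a (by omega) hu, code_mod a hu, if_pos (by omega)]
  split_ifs with h1 h2 h3 h4 <;> simp <;> omega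

theorem chk_last (a : ℕ) {u : ℕ} (hu : u < mm P x) (q₀ q₁ q₂ : ℕ) :
    chk P x (a * k2 P x + (P.bound x.length * mm P x + u)) q₀ q₁ q₂ = 0 ↔
      (u % (P.bound x.length + 1) ≠ 0 → gg P x ≤ q₀) ∧
      (u % (P.bound x.length + 1) = 0 → q₀ = 0) := by
  unfold chk
  rw [code_div a (by omega) hu, code_mod a hu, if_neg (by omega), if_pos le_rfl]
  split_ifs with h1 h2 h3 <;> simp <;> omega

theorem chk_out (a : ℕ) {u : ℕ} (hu : u < mm P x) (q₀ q₁ q₂ : ℕ) :
    chk P x (a * k2 P x + ((P.bound x.length + 1) * mm P x + u)) q₀ q₁ q₂ = 0 := by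
  unfold chk
  rw [code_div a (by omega) hu, if_neg (by omega), if_neg (by omega)]

/-! ### Soundness -/

theorem sound (hφ : ∀ x m, φ x m ≤ 1) {a : ℕ} (h : ∀ c < k2 P x, F2 P φ x (a * k2 P x + c) = 0) : ∀ k ≤ P.bound x.length,
    ∀ u < mm P x, |(qq P φ x a (P.bound x.length - k) u : ℝ) -
      gg P x * pr P x (P.bound x.length - k) u| ≤ 2 * k := by
  intro k
  induction k with
  | zero =>
    intro _ u hu
    rw [Nat.sub_zero, pr_last]
    have h1 := h _ (code_lt (show P.bound x.length < P.bound x.length + 2 by omega) hu)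
    rw [F2_eq a hu, chk_last a hu] at h1
    have h2 : qq P φ x a (P.bound x.length) u ≤ gg P x := F1_le P x hφ _
    split_ifs with hc
    · have h3 : qq P φ x a (P.bound x.length) u = gg P x := le_antisymm h2 (h1.1 hc)
      rw [h3]
      simp
    · have h3 := h1.2 (not_not.1 hc)
      rw [h3]
      simp
  | succ k ih =>
    intro hk u hu
    have ht : P.bound x.length - (k + 1) < P.bound x.length := by omega
    have ht1 : P.bound x.length - (k + 1) + 1 = P.bound x.length - k := by omega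
    have h1 := h _ (code_lt (show P.bound x.length - (k + 1) < P.bound x.length + 2 by omega) hu)
    rw [F2_eq a hu, chk_succ a ht hu] at h1
    obtain ⟨h2, h3, -⟩ := h1
    rw [pr_succ P x ht]
    rw [ht1] at h2 h3 ⊢
    have i1 := ih (by omega) _ (nxt_lt P x u false)
    have i2 := ih (by omega) _ (nxt_lt P x u true)
    have h2' : (2 * qq P φ x a (P.bound x.length - (k + 1)) u : ℝ) ≤
        qq P φ x a (P.bound x.length - k) (nxt P x u false) +
        qq P φ x a (P.bound x.length - k) (nxt P x u true) + 4 := by exact_mod_cast h2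
    have h3' : (qq P φ x a (P.bound x.length - k) (nxt P x u false) +
        qq P φ x a (P.bound x.length - k) (nxt P x u true) : ℝ) ≤
        2 * qq P φ x a (P.bound x.length - (k + 1)) u + 4 := by exact_mod_cast h3
    rw [abs_le] at i1 i2 ⊢
    push_cast
    constructor <;> nlinarith

theorem F4_sound (hφ : ∀ x m, φ x m ≤ 1) (h : F4 P φ Na x 0 ≠ 0) : ¬ P.prob empty x ≤ 1 / 3 := by
  intro hP
  unfold F4 at h
  obtain ⟨a, ha, h1⟩ := Finset.exists_ne_zero_of_sum_ne_zero h
  have h2 : F3 P φ x a = 0 := by omega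
  have h3 : ∀ c < k2 P x, F2 P φ x (a * k2 P x + c) = 0 := by
    intro c hc
    unfold F3 at h2
    rw [Finset.sum_eq_zero_iff] at h2
    exact h2 c (Finset.mem_range.2 hc)
  have h4 := sound hφ h3 (P.bound x.length) le_rfl 0 (mm_pos P x)
  rw [Nat.sub_self, pr_zero, abs_le] at h4
  have hb := P.bound_ge x.length
  have h5 := h3 _ (code_lt (show 0 < P.bound x.length + 2 by omega) (mm_pos P x))
  rw [F2_eq a (mm_pos P x), chk_succ a (by omega) (mm_pos P x)] at h5
  have h6 : (gg P x : ℝ) ≤ 2 * qq P φ x a 0 0 := by exact_mod_cast h5.2.2 rfl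
  have h7 : (gg P x : ℝ) = 24 * ((P.bound x.length : ℝ) + 1) := by
    unfold gg
    push_cast
    ring
  have h8 : (0 : ℝ) ≤ P.bound x.length := Nat.cast_nonneg _
  have h9 : (gg P x : ℝ) * P.prob empty x ≤ gg P x * (1 / 3) :=
    mul_le_mul_of_nonneg_left hP (Nat.cast_nonneg _)
  nlinarith [h4.2]

/-! ### Completeness -/

theorem F4_complete (hφ : ∀ x m, φ x m ≤ 1) {a : ℕ} (ha : a < Na x.length)
    (hY : ∀ m < k1 P x, 2 / 3 ≤ (samp P).prob (up m) x → φ x (a * k1 P x + m) = 1)
    (hN : ∀ m < k1 P x, (samp P).prob (up m) x ≤ 1 / 3 → φ x (a * k1 P x + m) = 0)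
    (hP : 2 / 3 ≤ P.prob empty x) : F4 P φ Na x 0 ≠ 0 := by
  have hG : (0 : ℝ) < gg P x := by exact_mod_cast gg_pos P x
  -- the estimates
  have hq : ∀ t < P.bound x.length + 2, ∀ u < mm P x,
      ⌊(gg P x : ℝ) * pr P x t u⌋₊ ≤ qq P φ x a t u ∧
        qq P φ x a t u ≤ ⌈(gg P x : ℝ) * pr P x t u⌉₊ := by
    intro t ht u hu
    have hcode := code_lt ht hu
    have hlt : ∀ j < gg P x, (t * mm P x + u) * gg P x + j < k1 P x := by
      intro j hj
      unfold k1
      have : (t * mm P x + u + 1) * gg P x ≤ k2 P x * gg P x := Nat.mul_le_mul_right _ hcode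
      nlinarith
    have hF0 : ∀ j, (a * k2 P x + (t * mm P x + u)) * gg P x + j =
        a * k1 P x + ((t * mm P x + u) * gg P x + j) := by
      intro j
      unfold k1
      ring
    have hcode' : ∀ j < gg P x, (t * mm P x + u) * gg P x + j < (x.length + 2) ^ dS P ∧
        ((t * mm P x + u) * gg P x + j) % gg P x = j ∧
        ((t * mm P x + u) * gg P x + j) / gg P x % mm P x = u ∧
        ((t * mm P x + u) * gg P x + j) / gg P x / mm P x = t := by
      intro j hj
      have e1 : ((t * mm P x + u) * gg P x + j) / gg P x = t * mm P x + u := by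
        rw [Nat.mul_comm, Nat.mul_add_div (gg_pos P x), Nat.div_eq_of_lt hj, Nat.add_zero]
      refine ⟨?_, ?_, ?_, ?_⟩
      · exact (hlt j hj).trans_le (k1_le P x)
      · rw [Nat.mul_comm, Nat.mul_add_mod_self_left, Nat.mod_eq_of_lt hj]
      · rw [e1, Nat.mul_comm, Nat.mul_add_mod_self_left, Nat.mod_eq_of_lt hu]
      · rw [e1, Nat.mul_comm, Nat.mul_add_div (mm_pos P x), Nat.div_eq_of_lt hu, Nat.add_zero]
    have hqq : qq P φ x a t u = ∑ j ∈ Finset.range (gg P x),
        φ x ((a * k2 P x + (t * mm P x + u)) * gg P x + j) := rfl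
    rw [hqq]
    refine sum_bounds (fun j => hφ x _) (pr_bounds t u).1 (pr_bounds t u).2
      (fun j hj hle => ?_) (fun j hj hle => ?_)
    · obtain ⟨c1, c2, c3, c4⟩ := hcode' j hj
      rw [hF0 j]
      refine hY _ (hlt j hj) (samp_ge c1 ?_)
      rw [c2, c3, c4, div_le_iff₀ hG]
      linarith
    · obtain ⟨c1, c2, c3, c4⟩ := hcode' j hj
      rw [hF0 j]
      refine hN _ (hlt j hj) (samp_le c1 ?_)
      rw [c2, c3, c4, le_div_iff₀ hG]
      linarith
  have hlow : ∀ t < P.bound x.length + 2, ∀ u < mm P x,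
      (gg P x : ℝ) * pr P x t u - 1 ≤ qq P φ x a t u := by
    intro t ht u hu
    have h1 := Nat.lt_floor_add_one ((gg P x : ℝ) * pr P x t u)
    have h2 : ((⌊(gg P x : ℝ) * pr P x t u⌋₊ : ℕ) : ℝ) ≤ qq P φ x a t u := by
      exact_mod_cast (hq t ht u hu).1
    linarith
  have hupp : ∀ t < P.bound x.length + 2, ∀ u < mm P x,
      (qq P φ x a t u : ℝ) ≤ (gg P x : ℝ) * pr P x t u + 1 := by
    intro t ht u hu
    have h1 := Nat.ceil_lt_add_one (show 0 ≤ (gg P x : ℝ) * pr P x t u from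
      mul_nonneg hG.le (pr_bounds t u).1)
    have h2 : (qq P φ x a t u : ℝ) ≤ ((⌈(gg P x : ℝ) * pr P x t u⌉₊ : ℕ) : ℝ) := by
      exact_mod_cast (hq t ht u hu).2
    linarith
  -- all checks succeed
  have hall : ∀ c < k2 P x, F2 P φ x (a * k2 P x + c) = 0 := by
    intro c hc
    have hu : c % mm P x < mm P x := Nat.mod_lt _ (mm_pos P x)
    have ht : c / mm P x < P.bound x.length + 2 :=
      (Nat.div_lt_iff_lt_mul (mm_pos P x)).2 hc
    have e : c = c / mm P x * mm P x + c % mm P x := (Nat.div_add_mod' c (mm P x)).symm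
    generalize c / mm P x = t at ht e
    generalize c % mm P x = u at hu e
    subst e
    rw [F2_eq a hu]
    rcases lt_trichotomy t (P.bound x.length) with h | h | h
    · rw [chk_succ a h hu]
      have l0 := hlow t ht u hu
      have u0 := hupp t ht u hu
      have l1 := hlow (t + 1) (by omega) _ (nxt_lt P x u false)
      have u1 := hupp (t + 1) (by omega) _ (nxt_lt P x u false)
      have l2 := hlow (t + 1) (by omega) _ (nxt_lt P x u true)
      have u2 := hupp (t + 1) (by omega) _ (nxt_lt P x u true)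
      have hs := pr_succ P x h u
      refine ⟨?_, ?_, fun h0 => ?_⟩
      · have : (2 * qq P φ x a t u : ℝ) ≤ qq P φ x a (t + 1) (nxt P x u false) +
            qq P φ x a (t + 1) (nxt P x u true) + 4 := by
          rw [hs] at u0
          nlinarith
        exact_mod_cast this
      · have : (qq P φ x a (t + 1) (nxt P x u false) +
            qq P φ x a (t + 1) (nxt P x u true) : ℝ) ≤ 2 * qq P φ x a t u + 4 := by
          rw [hs] at l0
          nlinarith
        exact_mod_cast this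
      · obtain ⟨rfl, rfl⟩ : t = 0 ∧ u = 0 := by omega
        rw [pr_zero] at l0
        have h7 : (gg P x : ℝ) = 24 * ((P.bound x.length : ℝ) + 1) := by
          unfold gg
          push_cast
          ring
        have h8 : (0 : ℝ) ≤ P.bound x.length := Nat.cast_nonneg _
        have h9 : (gg P x : ℝ) * (2 / 3) ≤ gg P x * P.prob empty x :=
          mul_le_mul_of_nonneg_left hP hG.le
        have : (gg P x : ℝ) ≤ 2 * qq P φ x a 0 0 := by nlinarith
        exact_mod_cast this
    · subst h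
      rw [chk_last a hu]
      have h1 := hq (P.bound x.length) ht u hu
      rw [pr_last] at h1
      constructor
      · intro h2
        rw [if_pos h2, mul_one, Nat.floor_natCast] at h1
        exact h1.1
      · intro h2
        rw [if_neg (not_not.2 h2), mul_zero, Nat.ceil_zero] at h1
        exact Nat.le_zero.1 h1.2
    · obtain rfl : t = P.bound x.length + 1 := by omega
      exact chk_out a hu _ _ _
  have h3 : F3 P φ x a = 0 := by
    unfold F3
    refine Finset.sum_eq_zero fun c hc => ?_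
    exact hall c (Finset.mem_range.1 hc)
  unfold F4
  intro hsum
  rw [Finset.sum_eq_zero_iff] at hsum
  have := hsum a (Finset.mem_range.2 (by omega))
  rw [h3] at this
  omega

end

theorem up_zero : up 0 = empty := by
  funext i
  unfold up empty
  exact decide_eq_false (Nat.not_lt_zero _)

/-- The main tool: a promise problem is solved if one of polynomially many candidates answers all
questions about the input correctly. -/
theorem core (P : Prog) {φ : List Bool → ℕ → ℕ} (hφ : ∀ x m, φ x m ≤ 1)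
    (hc : ∀ d, ∃ Q : Prog, Comp d Q φ) {Na : ℕ → ℕ} (naE : Expr)
    (hna : ∀ W x A v b, naE.eval W x A v b = Na x.length) {e : ℕ}
    (hNa : ∀ n, Na n ≤ (n + 2) ^ e)
    (hgood : ∀ x, 2 / 3 ≤ P.prob empty x → ∃ a < Na x.length,
      (∀ m < k1 P x, 2 / 3 ≤ (samp P).prob (up m) x → φ x (a * k1 P x + m) = 1) ∧
      ∀ m < k1 P x, (samp P).prob (up m) x ≤ 1 / 3 → φ x (a * k1 P x + m) = 0) :
    PromiseL {x | 2 / 3 ≤ P.prob empty x} {x | P.prob empty x ≤ 1 / 3} := by
  obtain ⟨Q₀, hQ₀⟩ := hc (d0 P e)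
  obtain ⟨Q, hQ⟩ := comp_F4 P hφ hQ₀ naE hna hNa
  have key : ∀ x, Q.Acc empty x (fun _ => false) ↔ F4 P φ Na x 0 ≠ 0 := by
    intro x
    have := hQ x 0 (by simp)
    rw [up_zero] at this
    unfold Prog.Acc
    rw [this]
  refine ⟨Q, fun x hx => ?_, fun x hx => ?_⟩
  · rw [key]
    obtain ⟨a, ha, h1, h2⟩ := hgood x hx
    exact F4_complete hφ ha h1 h2 hx
  · rw [key]
    exact fun h => F4_sound hφ h hx

end Pool.Agent.L0h58.KL
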