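import Pool.Agent.L0h58.RL.Defs

/-!
# Advice, and selective sets

Definitions.
-/

set_option autoImplicit false

namespace Pool.Agent.L0h58.KL

open Pool.Agent.L0h58.RL

/-- The contents of the registers after `t` steps of the program `P` from the contents `v`, with the
oracle `A`, the input `x` and the random bits `r`. -/
def runFrom (P : Prog) (A : ℕ → Bool) (x : List Bool) (v : ℕ → ℕ) (r : ℕ → Bool) : ℕ → ℕ → ℕ
  | 0 => v
  | t + 1 => P.step A x (runFrom P A x v r t) (r t)

/-- The initial contents of the registers if the advice is `a`: the register `1` contains `a`, the
other ones are empty. -/
def adv (a : ℕ) : ℕ → ℕ := fun i => if i = 1 then a else 0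

/-- The output (the contents of the register `0` at the end) of the deterministic program `D` on the
input `z` with the advice `a`. -/
def advOut (D : Prog) (a : ℕ) (z : List Bool) : ℕ :=
  runFrom D empty z (adv a) (fun _ => false) (D.bound z.length) 0

/-- The promise problem with the yes-instances `Y` and the no-instances `N` is solvable in
deterministic logarithmic space with advice of logarithmic length: the advice for the inputs of length
`n` is a number `a n` with `O (log n)` bits, which is in the register `1` at the beginning. -/
def PromiseLAdv (Y N : Set (List Bool)) : Prop :=
  ∃ (D : Prog) (a : ℕ → ℕ), (∀ n, a n ≤ D.bound n) ∧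
    (∀ x ∈ Y, advOut D (a x.length) x ≠ 0) ∧ ∀ x ∈ N, advOut D (a x.length) x = 0

/-- The set `S` is selective in logarithmic space: there is a deterministic program `D` of
logarithmic space which, given two strings of the same length, chooses one of them (the first one if it
accepts, and the second one otherwise) such that the chosen one is in `S` if one of them is in
`S`. (Nothing is required for strings of different lengths.) -/
def LSelective (S : Set (List Bool)) : Prop :=
  ∃ D : Prog, ∀ y z : List Bool, y.length = z.length →
    (D.Acc empty (y ++ z) (fun _ => false) → y ∈ S ∨ z ∈ S → y ∈ S) ∧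
    (¬ D.Acc empty (y ++ z) (fun _ => false) → y ∈ S ∨ z ∈ S → z ∈ S)

end Pool.Agent.L0h58.KL
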