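import Pool.Agent.L0h58.RL.Base
import Mathlib.Algebra.BigOperators.Fin
import Mathlib.Tactic.LinearCombination
import Mathlib.Algebra.Order.BigOperators.Group.Finset

/-!
# Expected values of functions of random bits, and independent trials
-/

set_option autoImplicit false

namespace Pool.Agent.L0h58.KL

open Pool.Agent.L0h58.RL

/-- put a bit in front -/
def cns (b : Bool) (r : ℕ → Bool) : ℕ → Bool
  | 0 => b
  | i + 1 => r i

/-- omit `s` bits -/
def sh (s : ℕ) (r : ℕ → Bool) : ℕ → Bool := fun i => r (s + i)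

/-- The expected value of `g` for `T` random bits (the other ones are `false`). -/
noncomputable def Ex : ℕ → ((ℕ → Bool) → ℝ) → ℝ
  | 0, g => g fun _ => false
  | T + 1, g => (Ex T (fun r => g (cns false r)) + Ex T (fun r => g (cns true r))) / 2

theorem ex_add (T : ℕ) : ∀ g h : (ℕ → Bool) → ℝ, Ex T (fun r => g r + h r) = Ex T g + Ex T h := by
  induction T with
  | zero => exact fun _ _ => rfl
  | succ T ih =>
    intro g h
    simp only [Ex]
    rw [ih, ih]
    ring

theorem ex_mul (T : ℕ) (c : ℝ) : ∀ g : (ℕ → Bool) → ℝ, Ex T (fun r => c * g r) = c * Ex T g := by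
  induction T with
  | zero => exact fun _ => rfl
  | succ T ih =>
    intro g
    simp only [Ex]
    rw [ih, ih]
    ring

theorem ex_const (T : ℕ) (c : ℝ) : Ex T (fun _ => c) = c := by
  induction T with
  | zero => rfl
  | succ T ih =>
    simp only [Ex]
    rw [ih]
    ring

theorem ex_mono (T : ℕ) : ∀ g h : (ℕ → Bool) → ℝ, (∀ r, g r ≤ h r) → Ex T g ≤ Ex T h := by
  induction T with
  | zero => exact fun g h H => H _
  | succ T ih =>
    intro g h H
    simp only [Ex]
    have h1 := ih _ _ fun r => H (cns false r)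
    have h2 := ih _ _ fun r => H (cns true r)
    linarith

/-- The function `g` depends only on the first `L` bits. -/
def DepOn (L : ℕ) (g : (ℕ → Bool) → ℝ) : Prop := ∀ r r', (∀ i < L, r i = r' i) → g r = g r'

theorem DepOn.cns {L : ℕ} {g : (ℕ → Bool) → ℝ} (h : DepOn (L + 1) g) (b : Bool) :
    DepOn L fun r => g (cns b r) := by
  intro r r' H
  refine h _ _ fun i hi => ?_
  cases i with
  | zero => rfl
  | succ i => exact H i (by omega)

theorem DepOn.mono {L L' : ℕ} {g : (ℕ → Bool) → ℝ} (h : DepOn L g) (hL : L ≤ L') : DepOn L' g :=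
  fun r r' H => h r r' fun i hi => H i (by omega)

theorem ex_ext {T T' : ℕ} (hT : T ≤ T') : ∀ g : (ℕ → Bool) → ℝ, DepOn T g → Ex T' g = Ex T g := by
  induction T generalizing T' with
  | zero =>
    intro g h
    have h1 : g = fun _ => g fun _ => false := by
      funext r
      exact h _ _ fun i hi => absurd hi (Nat.not_lt_zero _)
    rw [h1, ex_const, ex_const]
  | succ T ih =>
    intro g h
    obtain ⟨T'', rfl⟩ : ∃ T'', T' = T'' + 1 := ⟨T' - 1, by omega⟩
    simp only [Ex]
    rw [ih (by omega) _ (h.cns false), ih (by omega) _ (h.cns true)]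

theorem sh_cns (L : ℕ) (b : Bool) (r : ℕ → Bool) : sh (L + 1) (cns b r) = sh L r := by
  funext i
  unfold sh
  rw [show L + 1 + i = (L + i) + 1 by ring]
  rfl

/-- Independence. -/
theorem ex_prod (L T : ℕ) : ∀ F : (ℕ → Bool) → (ℕ → Bool) → ℝ,
    (∀ r', DepOn L fun r => F r r') →
    Ex (L + T) (fun r => F r (sh L r)) = Ex L (fun r => Ex T (F r)) := by
  induction L with
  | zero =>
    intro F hF
    rw [Nat.zero_add]
    change _ = Ex T (F fun _ => false)
    congr 1
    funext r
    have h1 : sh 0 r = r := by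
      funext i
      unfold sh
      rw [Nat.zero_add]
    rw [h1]
    exact hF r _ _ fun i hi => absurd hi (Nat.not_lt_zero _)
  | succ L ih =>
    intro F hF
    rw [show L + 1 + T = (L + T) + 1 by ring]
    simp only [Ex, sh_cns]
    rw [ih (fun r r' => F (cns false r) r') fun r' => (hF r').cns false,
      ih (fun r r' => F (cns true r) r') fun r' => (hF r').cns true]

theorem ex_shift (s T : ℕ) (g : (ℕ → Bool) → ℝ) : Ex (s + T) (fun r => g (sh s r)) = Ex T g := by
  rw [ex_prod s T (fun _ r' => g r') fun _ _ _ _ => rfl, ex_const]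

theorem sum_ex (T : ℕ) : ∀ g : (ℕ → Bool) → ℝ,
    (∑ r : Fin T → Bool, g (ext r)) = 2 ^ T * Ex T g := by
  induction T with
  | zero =>
    intro g
    simp only [Finset.univ_unique, Finset.sum_singleton, pow_zero, one_mul, Ex]
    congr 1
  | succ T ih =>
    intro g
    have hext : ∀ (b : Bool) (r : Fin T → Bool), ext (Fin.cons b r : Fin (T + 1) → Bool) =
        cns b (ext r) := by
      intro b r
      funext i
      unfold ext
      cases i with
      | zero => rfl
      | succ i =>
        by_cases h : i < T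
        · rw [dif_pos (show i + 1 < T + 1 by omega)]
          change _ = (if h : i < T then r ⟨i, h⟩ else false)
          rw [dif_pos h]
          rfl
        · rw [dif_neg (show ¬ i + 1 < T + 1 by omega)]
          change _ = (if h : i < T then r ⟨i, h⟩ else false)
          rw [dif_neg h]
    have h1 : (∑ r : Fin (T + 1) → Bool, g (ext r)) =
        ∑ q : Bool × (Fin T → Bool), g (ext (Fin.cons q.1 q.2 : Fin (T + 1) → Bool)) :=
      ((Fin.consEquiv fun _ => Bool).sum_comp fun r => g (ext r)).symm
    rw [h1, Fintype.sum_prod_type, Fintype.sum_bool]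
    simp only [hext]
    rw [ih (fun r => g (cns true r)), ih (fun r => g (cns false r))]
    simp only [Ex]
    rw [pow_succ]
    ring

open Classical in
theorem prob_ex (P : Prog) (A : ℕ → Bool) (x : List Bool) : P.prob A x =
    Ex (P.bound x.length) (fun r => if P.Acc A x r then 1 else 0) := by
  have h1 := sum_ex (P.bound x.length) (fun r => if P.Acc A x r then (1 : ℝ) else 0)
  have h2 : (accs P A x : ℝ) = ∑ r : Fin (P.bound x.length) → Bool,
      (if P.Acc A x (ext r) then (1 : ℝ) else 0) := by
    unfold accs cnt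
    rw [Fintype.card_subtype, Finset.sum_boole]
  rw [prob_eq, h2, h1]
  field_simp

/-! ### Independent trials -/

/-- the number of successes in `R` trials -/
noncomputable def Xs (L : ℕ) (f : (ℕ → Bool) → ℝ) (R : ℕ) (r : ℕ → Bool) : ℝ :=
  ∑ ρ ∈ Finset.range R, f (sh (ρ * L) r)

theorem xs_succ (L : ℕ) (f : (ℕ → Bool) → ℝ) (R : ℕ) (r : ℕ → Bool) :
    Xs L f (R + 1) r = f r + Xs L f R (sh L r) := by
  unfold Xs
  rw [Finset.sum_range_succ', add_comm]
  congr 1
  · congr 1
    funext i
    unfold sh
    rw [Nat.zero_mul, Nat.zero_add]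
  · refine Finset.sum_congr rfl fun ρ _ => ?_
    congr 1
    funext i
    unfold sh
    congr 1
    ring

theorem xs_dep {L : ℕ} {f : (ℕ → Bool) → ℝ} (hf : DepOn L f) (R : ℕ) :
    DepOn (R * L) (Xs L f R) := by
  intro r r' H
  unfold Xs
  refine Finset.sum_congr rfl fun ρ hρ => ?_
  rw [Finset.mem_range] at hρ
  refine hf _ _ fun i hi => H _ ?_
  have : (ρ + 1) * L ≤ R * L := Nat.mul_le_mul_right _ hρ
  nlinarith

theorem ex_xs {L : ℕ} {f : (ℕ → Bool) → ℝ} {p : ℝ} (hf : DepOn L f) (hp : Ex L f = p) (R : ℕ) :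
    Ex (R * L) (Xs L f R) = R * p := by
  induction R with
  | zero =>
    have : Xs L f 0 = fun _ => 0 := by
      funext r
      simp [Xs]
    rw [this, ex_const]
    simp
  | succ R ih =>
    have h1 : Xs L f (R + 1) = fun r => f r + Xs L f R (sh L r) := by
      funext r
      exact xs_succ L f R r
    rw [h1, show (R + 1) * L = L + R * L by ring,
      ex_prod L (R * L) (fun r r' => f r + Xs L f R r') fun r' s s' H => by
        change f s + _ = f s' + _
        rw [hf s s' H]]
    have h2 : (fun r => Ex (R * L) fun r' => f r + Xs L f R r') = fun r => f r + R * p := by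
      funext r
      rw [ex_add, ex_const, ih]
    rw [h2, ex_add, ex_const, hp]
    push_cast
    ring

theorem ex_sq {L : ℕ} {f : (ℕ → Bool) → ℝ} {p : ℝ} (hf : DepOn L f) (hp : Ex L f = p)
    (h01 : ∀ r, f r = 0 ∨ f r = 1) (R : ℕ) :
    Ex (R * L) (fun r => (Xs L f R r - R * p) ^ 2) = R * (p * (1 - p)) := by
  induction R with
  | zero =>
    have : (fun r => (Xs L f 0 r - (0 : ℕ) * p) ^ 2) = fun _ => 0 := by
      funext r
      simp [Xs]
    rw [this, ex_const]
    simp
  | succ R ih =>
    have h1 : (fun r => (Xs L f (R + 1) r - ((R + 1 : ℕ) : ℝ) * p) ^ 2) =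
        fun r => (f r - p + (Xs L f R (sh L r) - R * p)) ^ 2 := by
      funext r
      rw [xs_succ]
      push_cast
      ring
    rw [h1, show (R + 1) * L = L + R * L by ring,
      ex_prod L (R * L) (fun r r' => (f r - p + (Xs L f R r' - R * p)) ^ 2) fun r' s s' H => by
        change (f s - p + _) ^ 2 = (f s' - p + _) ^ 2
        rw [hf s s' H]]
    have h2 : (fun r => Ex (R * L) fun r' => (f r - p + (Xs L f R r' - R * p)) ^ 2) =
        fun r => (1 - 2 * p) * f r + (p ^ 2 + R * (p * (1 - p))) := by
      funext r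
      have e1 : (fun r' => (f r - p + (Xs L f R r' - R * p)) ^ 2) = fun r' =>
          ((f r - p) ^ 2 - 2 * (f r - p) * (R * p)) + ((2 * (f r - p)) * Xs L f R r' +
            (Xs L f R r' - R * p) ^ 2) := by
        funext r'
        ring
      rw [e1, ex_add, ex_const, ex_add, ex_mul, ex_xs hf hp, ih]
      have e2 : f r ^ 2 = f r := by
        rcases h01 r with h | h <;> rw [h] <;> norm_num
      linear_combination e2
    rw [h2, ex_add, ex_mul, ex_const, hp]
    push_cast
    ring

open Classical in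
/-- Chebyshev's inequality. -/
theorem chebyshev {L : ℕ} {f : (ℕ → Bool) → ℝ} {p : ℝ} (hf : DepOn L f) (hp : Ex L f = p)
    (h01 : ∀ r, f r = 0 ∨ f r = 1) (R : ℕ) {δ : ℝ} (hδ : 0 < δ) :
    Ex (R * L) (fun r => if δ ≤ |Xs L f R r - R * p| then (1 : ℝ) else 0) ≤ R / (4 * δ ^ 2) := by
  have h1 : Ex (R * L) (fun r => if δ ≤ |Xs L f R r - R * p| then (1 : ℝ) else 0) ≤
      Ex (R * L) (fun r => (1 / δ ^ 2) * (Xs L f R r - R * p) ^ 2) := by
    refine ex_mono _ _ _ fun r => ?_
    split_ifs with h
    · rw [one_div, ← div_eq_inv_mul, le_div_iff₀ (by positivity), one_mul]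
      calc δ ^ 2 ≤ |Xs L f R r - R * p| ^ 2 := by
            exact pow_le_pow_left₀ hδ.le h 2
        _ = _ := sq_abs _
    · positivity
  refine h1.trans ?_
  rw [ex_mul, ex_sq hf hp h01]
  have h2 : p * (1 - p) ≤ 1 / 4 := by nlinarith [sq_nonneg (p - 1 / 2)]
  calc 1 / δ ^ 2 * (R * (p * (1 - p))) ≤ 1 / δ ^ 2 * (R * (1 / 4)) := by
        gcongr
    _ = R / (4 * δ ^ 2) := by
        field_simp

end Pool.Agent.L0h58.KL
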