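import Pool.Agent.L0h58.RL.Sim
import Pool.Agent.L0h58.KL.Defs

/-!
# Loops

A program which simulates another program `P` several times, one time after the other, from given
initial contents of the registers, with input, oracle and number of steps depending on the number
of the simulation. After each simulation three registers (the accumulators) are updated.
-/

set_option autoImplicit false

namespace Pool.Agent.L0h58.KL

open Pool.Agent.L0h58.RL

theorem from_zero (P : Prog) (A : ℕ → Bool) (x : List Bool) (r : ℕ → Bool) (t : ℕ) :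
    runFrom P A x (fun _ => 0) r t = P.run A x r t := by
  induction t with
  | zero => rfl
  | succ t ih =>
    change P.step A x (runFrom P A x (fun _ => 0) r t) (r t) = P.step A x (P.run A x r t) (r t)
    rw [ih]

/-- The translation of expressions. -/
def trg (R : ℕ → Expr) (L C WE : Expr) (I O : Expr → Expr) : Expr → Expr
  | .const a => .const a
  | .reg i => R i
  | .len => L
  | .coin => C
  | .add e f => .add (trg R L C WE I O e) (trg R L C WE I O f)
  | .sub e f => .sub (trg R L C WE I O e) (trg R L C WE I O f)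
  | .mul e f => .mul (trg R L C WE I O e) (trg R L C WE I O f)
  | .div e f => .div (trg R L C WE I O e) (trg R L C WE I O f)
  | .mod e f => .mod (trg R L C WE I O e) (trg R L C WE I O f)
  | .ite e f g h => .ite (trg R L C WE I O e) (trg R L C WE I O f) (trg R L C WE I O g)
      (trg R L C WE I O h)
  | .inp e => I (trg R L C WE I O e)
  | .orc e => O (capE (trg R L C WE I O e) WE)

theorem eval_trg {W W' : ℕ} {x x' : List Bool} {A A' : ℕ → Bool} {v v' : ℕ → ℕ} {b b' : Bool}
    {R : ℕ → Expr} {L C WE : Expr} {I O : Expr → Expr}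
    (hL : L.eval W' x' A' v' b' = x.length) (hC : C.eval W' x' A' v' b' = b.toNat)
    (hW : WE.eval W' x' A' v' b' = W)
    (hI : ∀ e : Expr, (I e).eval W' x' A' v' b' = inputAt x (e.eval W' x' A' v' b'))
    (hO : ∀ e : Expr, e.eval W' x' A' v' b' ≤ W →
      (O e).eval W' x' A' v' b' = (A (e.eval W' x' A' v' b')).toNat)
    (hv : ∀ i, (R i).eval W' x' A' v' b' = v i) (e : Expr) :
    (trg R L C WE I O e).eval W' x' A' v' b' = e.eval W x A v b := by
  induction e with
  | const a => rfl
  | reg i => exact hv i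
  | len => exact hL
  | coin => exact hC
  | add e f he hf => simp only [trg, Expr.eval, he, hf]
  | sub e f he hf => simp only [trg, Expr.eval, he, hf]
  | mul e f he hf => simp only [trg, Expr.eval, he, hf]
  | div e f he hf => simp only [trg, Expr.eval, he, hf]
  | mod e f he hf => simp only [trg, Expr.eval, he, hf]
  | ite e f g k he hf hg hk => simp only [trg, Expr.eval, he, hf, hg, hk]
  | inp e he => simp only [trg, Expr.eval, hI, he]
  | orc e he =>
    simp only [trg, Expr.eval]
    rw [hO, eval_capE, he, hW]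
    rw [eval_capE, he, hW]
    exact min_le_right _ _

/-- The data of a loop. -/
structure Loop where
  /-- the first part of the condition for counting -/
  s₁ : Expr
  /-- the second part -/
  s₂ : Expr
  /-- the length of the simulated input -/
  L : Expr
  /-- the random bit -/
  C : Expr
  /-- the input -/
  I : Expr → Expr
  /-- the oracle -/
  O : Expr → Expr
  /-- the initial contents of the registers -/
  V : ℕ → Expr
  /-- the number of omitted steps -/
  T₀ : Expr
  /-- the number of repetitions -/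
  N : Expr
  /-- the new contents of the accumulators -/
  a : ℕ → Expr
  /-- the output -/
  Out : Expr
  /-- the exponent -/
  c' : ℕ

/-- the simulated register `i` -/
def Loop.eff (D : Loop) (i : ℕ) : Expr := .ite (.reg 1) (.const 0) (D.V i) (.reg (i + 7))

/-- The code of the register `i + 7`. -/
def Loop.line (D : Loop) (P : Prog) (i : ℕ) (e : Expr) : Expr :=
  .ite D.s₁ D.s₂ (.const 0) (.ite (.add (.add D.T₀ (.reg 1)) (.const 1)) (bdE P.c D.L)
    (capE (trg D.eff D.L D.C (bdE P.c D.L) D.I D.O e) (bdE P.c D.L)) (D.eff i))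

/-- The code of the accumulator `k`. -/
def Loop.acc (D : Loop) (P : Prog) (k : ℕ) : Expr :=
  .ite D.s₁ D.s₂ (.const 0) (.ite (.add (.reg 1) (.const 1)) (bdE P.c D.L) (.reg (k + 4))
    (.ite (.add (.reg 3) (.const 1)) D.N (D.a k) (.reg (k + 4))))

/-- The program of the loop. -/
def Loop.prog (D : Loop) (P : Prog) : Prog where
  code := D.Out ::
    (.ite D.s₁ D.s₂ (.const 0) (.ite (.add (.reg 1) (.const 1)) (bdE P.c D.L)
      (.add (.reg 1) (.const 1)) (.const 0))) ::
    (.ite D.s₁ D.s₂ (.add (.reg 2) (.const 1)) (.reg 2)) ::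
    (.ite D.s₁ D.s₂ (.const 0) (.ite (.add (.reg 1) (.const 1)) (bdE P.c D.L) (.reg 3)
      (.ite (.add (.reg 3) (.const 1)) D.N (.add (.reg 3) (.const 1)) (.reg 3)))) ::
    D.acc P 0 :: D.acc P 1 :: D.acc P 2 :: P.code.mapIdx (D.line P)
  c := D.c'

/-- The result of the simulation `j`. -/
def res (P : Prog) (r' : ℕ → Bool) (s n : ℕ) (xs : ℕ → List Bool) (As : ℕ → ℕ → Bool)
    (vs : ℕ → ℕ → ℕ) (ts : ℕ → ℕ) (κ : Bool → Bool) (j : ℕ) : ℕ :=
  runFrom P (As j) (xs j) (vs j) (fun τ => κ (r' (s + j * (P.bound n + 1) + τ)))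
    (P.bound n - ts j) 0

/-- The conditions under which the loop is correct. -/
structure Loop.OK (D : Loop) (P : Prog) (A' : ℕ → Bool) (x' : List Bool) (r' : ℕ → Bool)
    (s n N : ℕ) (xs : ℕ → List Bool) (As : ℕ → ℕ → Bool) (vs : ℕ → ℕ → ℕ) (ts : ℕ → ℕ)
    (κ : Bool → Bool) (α : ℕ → ℕ → ℕ) (o : ℕ) : Prop where
  scan : ∀ v b, v 2 < s → D.s₁.eval ((D.prog P).bound x'.length) x' A' v b ≤
    D.s₂.eval ((D.prog P).bound x'.length) x' A' v b
  stop : ∀ v b, v 2 = s → ¬ D.s₁.eval ((D.prog P).bound x'.length) x' A' v b ≤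
    D.s₂.eval ((D.prog P).bound x'.length) x' A' v b
  lenx : ∀ j < N, (xs j).length = n
  len : ∀ v b, v 2 = s → D.L.eval ((D.prog P).bound x'.length) x' A' v b = n
  coin : ∀ v b, D.C.eval ((D.prog P).bound x'.length) x' A' v b = (κ b).toNat
  inp : ∀ v b, v 2 = s → v 3 < N → ∀ e : Expr,
    (D.I e).eval ((D.prog P).bound x'.length) x' A' v b =
      inputAt (xs (v 3)) (e.eval ((D.prog P).bound x'.length) x' A' v b)
  orc : ∀ v b, v 2 = s → v 3 < N → ∀ e : Expr,
    e.eval ((D.prog P).bound x'.length) x' A' v b ≤ P.bound n →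
    (D.O e).eval ((D.prog P).bound x'.length) x' A' v b =
      (As (v 3) (e.eval ((D.prog P).bound x'.length) x' A' v b)).toNat
  ini : ∀ v b, v 2 = s → v 3 < N → ∀ i,
    (D.V i).eval ((D.prog P).bound x'.length) x' A' v b = vs (v 3) i
  inile : ∀ j < N, ∀ i, vs j i ≤ P.bound n
  zero : ∀ j < N, P.bound n ≤ ts j → ∀ i, P.code.length ≤ i → vs j i = 0
  st : ∀ v b, v 2 = s → v 3 < N →
    D.T₀.eval ((D.prog P).bound x'.length) x' A' v b = ts (v 3)
  num : ∀ v b, v 2 = s → D.N.eval ((D.prog P).bound x'.length) x' A' v b = N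
  acc0 : ∀ k < 3, α 0 k = 0
  accS : ∀ j < N, ∀ k < 3, ∀ v b, v 2 = s → v 3 = j → (∀ l < 3, v (l + 4) = α j l) →
    v 7 = res P r' s n xs As vs ts κ j →
    (D.a k).eval ((D.prog P).bound x'.length) x' A' v b = α (j + 1) k
  accle : ∀ j ≤ N, ∀ k < 3, α j k ≤ (D.prog P).bound x'.length
  out : ∀ v b, v 2 = s → v 3 = N → (∀ l < 3, v (l + 4) = α N l) →
    D.Out.eval ((D.prog P).bound x'.length) x' A' v b = o
  time : s + N * (P.bound n + 1) + 1 ≤ (D.prog P).bound x'.length

section

variable {D : Loop} {P : Prog} {A' : ℕ → Bool} {x' : List Bool} {r' : ℕ → Bool}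
    {s n N : ℕ} {xs : ℕ → List Bool} {As : ℕ → ℕ → Bool} {vs : ℕ → ℕ → ℕ} {ts : ℕ → ℕ}
    {κ : Bool → Bool} {α : ℕ → ℕ → ℕ} {o : ℕ}

theorem Loop.getElem_reg (D : Loop) (P : Prog) (i : ℕ) : (D.prog P).code[i + 7]? =
    (P.code[i]?).map (D.line P i) := by
  change (P.code.mapIdx (D.line P))[i]? = _
  rw [List.getElem?_mapIdx]

theorem Loop.getElem_acc (D : Loop) (P : Prog) {k : ℕ} (hk : k < 3) :
    (D.prog P).code[k + 4]? = some (D.acc P k) := by
  match k, hk with
  | 0, _ => rfl
  | 1, _ => rfl
  | 2, _ => rfl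

/-- one step of the register `1` -/
theorem Loop.step_one (D : Loop) (P : Prog) (A' : ℕ → Bool) (x' : List Bool) (v : ℕ → ℕ)
    (b : Bool) : (D.prog P).step A' x' v b 1 =
      min (if D.s₁.eval ((D.prog P).bound x'.length) x' A' v b ≤
        D.s₂.eval ((D.prog P).bound x'.length) x' A' v b then 0 else
          if v 1 + 1 ≤ (bdE P.c D.L).eval ((D.prog P).bound x'.length) x' A' v b then v 1 + 1
          else 0) ((D.prog P).bound x'.length) := rfl

theorem Loop.step_two (D : Loop) (P : Prog) (A' : ℕ → Bool) (x' : List Bool) (v : ℕ → ℕ)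
    (b : Bool) : (D.prog P).step A' x' v b 2 =
      min (if D.s₁.eval ((D.prog P).bound x'.length) x' A' v b ≤
        D.s₂.eval ((D.prog P).bound x'.length) x' A' v b then v 2 + 1 else v 2)
        ((D.prog P).bound x'.length) := rfl

theorem Loop.step_three (D : Loop) (P : Prog) (A' : ℕ → Bool) (x' : List Bool) (v : ℕ → ℕ)
    (b : Bool) : (D.prog P).step A' x' v b 3 =
      min (if D.s₁.eval ((D.prog P).bound x'.length) x' A' v b ≤
        D.s₂.eval ((D.prog P).bound x'.length) x' A' v b then 0 else
          if v 1 + 1 ≤ (bdE P.c D.L).eval ((D.prog P).bound x'.length) x' A' v b then v 3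
          else if v 3 + 1 ≤ D.N.eval ((D.prog P).bound x'.length) x' A' v b then v 3 + 1
          else v 3) ((D.prog P).bound x'.length) := rfl

theorem Loop.step_acc (D : Loop) (P : Prog) (A' : ℕ → Bool) (x' : List Bool) (v : ℕ → ℕ)
    (b : Bool) {k : ℕ} (hk : k < 3) : (D.prog P).step A' x' v b (k + 4) =
      min (if D.s₁.eval ((D.prog P).bound x'.length) x' A' v b ≤
        D.s₂.eval ((D.prog P).bound x'.length) x' A' v b then 0 else
          if v 1 + 1 ≤ (bdE P.c D.L).eval ((D.prog P).bound x'.length) x' A' v b then v (k + 4)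
          else if v 3 + 1 ≤ D.N.eval ((D.prog P).bound x'.length) x' A' v b then
            (D.a k).eval ((D.prog P).bound x'.length) x' A' v b
          else v (k + 4)) ((D.prog P).bound x'.length) := by
  unfold Prog.step
  rw [Loop.getElem_acc D P hk]
  rfl

theorem Loop.step_zero (D : Loop) (P : Prog) (A' : ℕ → Bool) (x' : List Bool) (v : ℕ → ℕ)
    (b : Bool) : (D.prog P).step A' x' v b 0 =
      min (D.Out.eval ((D.prog P).bound x'.length) x' A' v b) ((D.prog P).bound x'.length) := rfl

/-- the counting phase -/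
theorem Loop.OK.scanning (h : D.OK P A' x' r' s n N xs As vs ts κ α o) : ∀ t ≤ s,
    (D.prog P).run A' x' r' t 1 = 0 ∧ (D.prog P).run A' x' r' t 2 = t ∧
      (D.prog P).run A' x' r' t 3 = 0 ∧ ∀ k < 3, (D.prog P).run A' x' r' t (k + 4) = 0 := by
  intro t
  have htime := h.time
  induction t with
  | zero => exact fun _ => ⟨rfl, rfl, rfl, fun _ _ => rfl⟩
  | succ t ih =>
    intro ht
    obtain ⟨h1, h2, h3, h4⟩ := ih (by omega)
    have hs := h.scan ((D.prog P).run A' x' r' t) (r' t) (by omega)
    refine ⟨?_, ?_, ?_, fun k hk => ?_⟩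
    · change (D.prog P).step A' x' ((D.prog P).run A' x' r' t) (r' t) 1 = 0
      rw [Loop.step_one, if_pos hs]
      exact Nat.zero_min _
    · change (D.prog P).step A' x' ((D.prog P).run A' x' r' t) (r' t) 2 = t + 1
      rw [Loop.step_two, if_pos hs, h2]
      exact min_eq_left (by omega)
    · change (D.prog P).step A' x' ((D.prog P).run A' x' r' t) (r' t) 3 = 0
      rw [Loop.step_three, if_pos hs]
      exact Nat.zero_min _
    · change (D.prog P).step A' x' ((D.prog P).run A' x' r' t) (r' t) (k + 4) = 0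
      rw [Loop.step_acc _ _ _ _ _ _ hk, if_pos hs]
      exact Nat.zero_min _

/-- the state of the loop -/
structure St (w : ℕ → ℕ) (s N : ℕ) (α : ℕ → ℕ → ℕ) (j τ : ℕ) (u : ℕ → ℕ) : Prop where
  h1 : w 1 = τ
  h2 : w 2 = s
  h3 : w 3 = j
  h4 : ∀ k < 3, w (k + 4) = α j k
  h5 : 0 < τ → ∀ i, w (i + 7) = u i

/-- one step of a simulation -/
theorem Loop.OK.inner_step (h : D.OK P A' x' r' s n N xs As vs ts κ α o) {w u : ℕ → ℕ} {j τ : ℕ}
    {b : Bool} (hj : j < N) (hτ : τ < P.bound n)
    (hu : τ = 0 → ∀ i, u i = vs j i)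
    (hu0 : P.bound n ≤ ts j + τ → ∀ i, P.code.length ≤ i → u i = 0)
    (hule : ∀ i, u i ≤ P.bound n) (hw : St w s N α j τ u) :
    St ((D.prog P).step A' x' w b) s N α j (τ + 1)
      (if ts j + τ + 1 ≤ P.bound n then P.step (As j) (xs j) u (κ b) else u) := by
  obtain ⟨h1, h2, h3, h4, h5⟩ := hw
  have htime := h.time
  have hs := h.stop w b h2
  have hW : (bdE P.c D.L).eval ((D.prog P).bound x'.length) x' A' w b = P.bound n :=
    eval_bdE x' A' w b D.L P (h.len w b h2)
  have hN1 : 1 * (P.bound n + 1) ≤ N * (P.bound n + 1) := Nat.mul_le_mul_right _ (by omega)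
  have hjN : j ≤ N * (P.bound n + 1) := by nlinarith
  have heff : ∀ i, (D.eff i).eval ((D.prog P).bound x'.length) x' A' w b = u i := by
    intro i
    unfold Loop.eff
    by_cases h0 : τ = 0
    · rw [eval_ite_pos (by change w 1 ≤ 0; omega), h.ini w b h2 (by omega), h3, hu h0]
    · rw [eval_ite_neg (by change ¬ w 1 ≤ 0; omega)]
      exact h5 (by omega) i
  refine ⟨?_, ?_, ?_, fun k hk => ?_, fun _ i => ?_⟩
  · rw [Loop.step_one, if_neg hs, hW, if_pos (by omega), h1]
    exact min_eq_left (by omega)
  · rw [Loop.step_two, if_neg hs, h2]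
    exact min_eq_left (by omega)
  · rw [Loop.step_three, if_neg hs, hW, if_pos (by omega), h3]
    exact min_eq_left (by omega)
  · rw [Loop.step_acc _ _ _ _ _ _ hk, if_neg hs, hW, if_pos (by omega), h4 k hk]
    exact min_eq_left (h.accle j (by omega) k hk)
  · unfold Prog.step
    rw [Loop.getElem_reg]
    have hst := h.st w b h2 (by omega)
    rw [h3] at hst
    by_cases hc : ts j + τ + 1 ≤ P.bound n
    · rw [if_pos hc]
      cases hcode : P.code[i]? with
      | none => rfl
      | some e =>
        simp only [Option.map_some, Loop.line]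
        rw [eval_ite_neg hs, eval_ite_pos (by
          rw [hW]
          change (D.T₀.eval _ x' A' w b + w 1) + 1 ≤ _
          omega), eval_capE, hW]
        have hx : (xs j).length = n := h.lenx j hj
        rw [eval_trg (W := P.bound n) (x := xs j) (A := As j) (v := u) (b := κ b)
          ((h.len w b h2).trans hx.symm) (h.coin w b) hW
          (fun e => by rw [h.inp w b h2 (by omega), h3])
          (fun e he => by rw [h.orc w b h2 (by omega) e he, h3]) heff, hx]
        exact min_eq_left ((min_le_right _ _).trans (by omega))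
    · rw [if_neg hc]
      cases hcode : P.code[i]? with
      | none =>
        rw [List.getElem?_eq_none_iff] at hcode
        exact (hu0 (by omega) i hcode).symm
      | some e =>
        simp only [Option.map_some, Loop.line]
        rw [eval_ite_neg hs, eval_ite_neg (by
          rw [hW]
          change ¬ (D.T₀.eval _ x' A' w b + w 1) + 1 ≤ _
          omega), heff]
        exact min_eq_left ((hule i).trans (by omega))

/-- the contents of the simulated registers -/
def inner (P : Prog) (r' : ℕ → Bool) (s n : ℕ) (xs : ℕ → List Bool) (As : ℕ → ℕ → Bool)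
    (vs : ℕ → ℕ → ℕ) (ts : ℕ → ℕ) (κ : Bool → Bool) (j τ : ℕ) : ℕ → ℕ :=
  runFrom P (As j) (xs j) (vs j) (fun τ => κ (r' (s + j * (P.bound n + 1) + τ)))
    (min τ (P.bound n - ts j))

theorem Loop.OK.inner_run (h : D.OK P A' x' r' s n N xs As vs ts κ α o) {w : ℕ → ℕ} {j T : ℕ}
    (hj : j < N) (hT : T = s + j * (P.bound n + 1))
    (hw : (D.prog P).run A' x' r' T = w) (hSt : ∃ u, St w s N α j 0 u) : ∀ τ ≤ P.bound n,
    St ((D.prog P).run A' x' r' (T + τ)) s N α j τ (inner P r' s n xs As vs ts κ j τ) := by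
  intro τ
  have hx : (xs j).length = n := h.lenx j hj
  induction τ with
  | zero =>
    intro _
    obtain ⟨u, h1, h2, h3, h4, h5⟩ := hSt
    rw [Nat.add_zero, hw]
    exact ⟨h1, h2, h3, h4, fun h => absurd h (lt_irrefl _)⟩
  | succ τ ih =>
    intro hτ
    have key := h.inner_step (b := r' (T + τ)) hj (show τ < P.bound n by omega) (fun h0 i => by
        unfold inner
        rw [h0, Nat.zero_min]
        rfl) (fun h0 i hi => by
        unfold inner
        rw [min_eq_right (by omega)]
        by_cases hz : P.bound n ≤ ts j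
        · rw [show P.bound n - ts j = 0 by omega]
          exact h.zero j hj hz i hi
        · obtain ⟨q, hq⟩ : ∃ q, P.bound n - ts j = q + 1 := ⟨P.bound n - ts j - 1, by omega⟩
          rw [hq]
          change P.step _ _ _ _ i = 0
          unfold Prog.step
          rw [List.getElem?_eq_none hi]) (fun i => by
        unfold inner
        cases hmin : min τ (P.bound n - ts j) with
        | zero => exact h.inile j hj i
        | succ q =>
          have h1 := P.step_le (As j) (xs j) (runFrom P (As j) (xs j) (vs j)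
            (fun τ => κ (r' (s + j * (P.bound n + 1) + τ))) q)
            (κ (r' (s + j * (P.bound n + 1) + q))) i
          rw [hx] at h1
          exact h1) (ih (by omega))
    have e1 : (if ts j + τ + 1 ≤ P.bound n then P.step (As j) (xs j)
        (inner P r' s n xs As vs ts κ j τ) (κ (r' (T + τ))) else inner P r' s n xs As vs ts κ j τ) =
        inner P r' s n xs As vs ts κ j (τ + 1) := by
      unfold inner
      split_ifs with hc
      · rw [min_eq_left (show τ ≤ P.bound n - ts j by omega),
          min_eq_left (show τ + 1 ≤ P.bound n - ts j by omega), hT]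
        rfl
      · rw [min_eq_right (show P.bound n - ts j ≤ τ by omega),
          min_eq_right (show P.bound n - ts j ≤ τ + 1 by omega)]
    rw [e1] at key
    exact key

theorem Loop.OK.outer (h : D.OK P A' x' r' s n N xs As vs ts κ α o) : ∀ j ≤ N,
    ∃ u, St ((D.prog P).run A' x' r' (s + j * (P.bound n + 1))) s N α j 0 u := by
  intro j
  have htime := h.time
  induction j with
  | zero =>
    intro _
    obtain ⟨h1, h2, h3, h4⟩ := h.scanning s le_rfl
    rw [Nat.zero_mul, Nat.add_zero]
    exact ⟨fun _ => 0, h1, h2, h3, fun k hk => (h4 k hk).trans (h.acc0 k hk).symm,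
      fun h => absurd h (lt_irrefl _)⟩
  | succ j ih =>
    intro hj
    have h0 := ih (by omega)
    obtain ⟨h1, h2, h3, h4, h5⟩ := h.inner_run (show j < N by omega) rfl rfl h0 (P.bound n) le_rfl
    have hb := P.bound_ge n
    have hjN : (j + 1) * (P.bound n + 1) ≤ N * (P.bound n + 1) := Nat.mul_le_mul_right _ hj
    have hj' : j + 1 ≤ (j + 1) * (P.bound n + 1) := by nlinarith
    rw [show s + (j + 1) * (P.bound n + 1) = s + j * (P.bound n + 1) + P.bound n + 1 by ring]
    change ∃ u, St ((D.prog P).step A' x' ((D.prog P).run A' x' r'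
      (s + j * (P.bound n + 1) + P.bound n)) (r' (s + j * (P.bound n + 1) + P.bound n)))
      s N α (j + 1) 0 u
    generalize r' (s + j * (P.bound n + 1) + P.bound n) = b
    have h6 := h5 (by omega) 0
    generalize (D.prog P).run A' x' r' (s + j * (P.bound n + 1) + P.bound n) = w at *
    have hs := h.stop w b h2
    have hW : (bdE P.c D.L).eval ((D.prog P).bound x'.length) x' A' w b = P.bound n :=
      eval_bdE x' A' w b D.L P (h.len w b h2)
    refine ⟨fun i => (D.prog P).step A' x' w b (i + 7), ?_, ?_, ?_, fun k hk => ?_, fun _ i => rfl⟩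
    · rw [Loop.step_one, if_neg hs, hW, if_neg (by omega)]
      exact Nat.zero_min _
    · rw [Loop.step_two, if_neg hs, h2]
      exact min_eq_left (by omega)
    · rw [Loop.step_three, if_neg hs, hW, if_neg (by omega), h.num w b h2, if_pos (by omega), h3]
      exact min_eq_left (by omega)
    · rw [Loop.step_acc _ _ _ _ _ _ hk, if_neg hs, hW, if_neg (by omega), h.num w b h2,
        if_pos (by omega), h.accS j (by omega) k hk w b h2 h3 h4]
      · exact min_eq_left (h.accle (j + 1) hj k hk)
      · rw [h6]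
        unfold inner res
        rw [min_eq_right (by omega)]

theorem Loop.OK.after (h : D.OK P A' x' r' s n N xs As vs ts κ α o) : ∀ t,
    s + N * (P.bound n + 1) + t ≤ (D.prog P).bound x'.length →
    (D.prog P).run A' x' r' (s + N * (P.bound n + 1) + t) 2 = s ∧
    (D.prog P).run A' x' r' (s + N * (P.bound n + 1) + t) 3 = N ∧
    ∀ k < 3, (D.prog P).run A' x' r' (s + N * (P.bound n + 1) + t) (k + 4) = α N k := by
  intro t
  have htime := h.time
  have hN : N ≤ N * (P.bound n + 1) := by nlinarith
  induction t with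
  | zero =>
    intro _
    obtain ⟨u, h1, h2, h3, h4, -⟩ := h.outer N le_rfl
    exact ⟨h2, h3, h4⟩
  | succ t ih =>
    intro ht
    obtain ⟨h2, h3, h4⟩ := ih (by omega)
    rw [← Nat.add_assoc]
    change (D.prog P).step A' x' _ (r' _) 2 = s ∧ (D.prog P).step A' x' _ (r' _) 3 = N ∧
      ∀ k < 3, (D.prog P).step A' x' _ (r' _) (k + 4) = α N k
    generalize r' (s + N * (P.bound n + 1) + t) = b
    generalize (D.prog P).run A' x' r' (s + N * (P.bound n + 1) + t) = w at *
    have hs := h.stop w b h2
    refine ⟨?_, ?_, fun k hk => ?_⟩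
    · rw [Loop.step_two, if_neg hs, h2]
      exact min_eq_left (by omega)
    · rw [Loop.step_three, if_neg hs, h.num w b h2, if_neg (show ¬ w 3 + 1 ≤ N by omega), ite_self,
        h3]
      exact min_eq_left (by omega)
    · rw [Loop.step_acc _ _ _ _ _ _ hk, if_neg hs, h.num w b h2,
        if_neg (show ¬ w 3 + 1 ≤ N by omega), ite_self, h4 k hk]
      exact min_eq_left (h.accle N le_rfl k hk)

/-- The output of the loop. -/
theorem Loop.OK.result (h : D.OK P A' x' r' s n N xs As vs ts κ α o) :
    (D.prog P).run A' x' r' ((D.prog P).bound x'.length) 0 =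
      min o ((D.prog P).bound x'.length) := by
  have htime := h.time
  obtain ⟨k, hk⟩ : ∃ k, (D.prog P).bound x'.length = s + N * (P.bound n + 1) + k + 1 :=
    ⟨(D.prog P).bound x'.length - (s + N * (P.bound n + 1)) - 1, by omega⟩
  obtain ⟨h2, h3, h4⟩ := h.after k (by omega)
  have h5 : (D.prog P).run A' x' r' ((D.prog P).bound x'.length) 0 =
      (D.prog P).run A' x' r' (s + N * (P.bound n + 1) + k + 1) 0 := by rw [← hk]
  rw [h5]
  change (D.prog P).step A' x' ((D.prog P).run A' x' r' (s + N * (P.bound n + 1) + k))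
    (r' (s + N * (P.bound n + 1) + k)) 0 = _
  rw [Loop.step_zero, h.out _ _ h2 h3 h4]

end

end Pool.Agent.L0h58.KL
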