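import Pool.Agent.L0h58.KL.Comp
import Pool.Agent.L0h58.KL.Ex
import Pool.Agent.L0h58.CA.Red

/-!
# Estimating acceptance probabilities by sampling
-/

set_option autoImplicit false

namespace Pool.Agent.L0h58.KL

open Pool.Agent.L0h58.RL Pool.Agent.L0h58.CA

/-! ### Acceptance probabilities of configurations -/

theorem from_succ' (P : Prog) (A : ℕ → Bool) (x : List Bool) (v : ℕ → ℕ) (r : ℕ → Bool) (t : ℕ) :
    runFrom P A x v r (t + 1) = runFrom P A x (P.step A x v (r 0)) (sh 1 r) t := by
  induction t with
  | zero => rfl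
  | succ t ih =>
    change P.step A x (runFrom P A x v r (t + 1)) (r (t + 1)) =
      P.step A x (runFrom P A x (P.step A x v (r 0)) (sh 1 r) t) (sh 1 r t)
    rw [ih]
    unfold sh
    rw [Nat.add_comm 1 t]

theorem from_congr (P : Prog) (A : ℕ → Bool) (x : List Bool) (v : ℕ → ℕ) {r r' : ℕ → Bool} {t : ℕ}
    (h : ∀ i < t, r i = r' i) : runFrom P A x v r t = runFrom P A x v r' t := by
  induction t with
  | zero => rfl
  | succ t ih =>
    change P.step A x (runFrom P A x v r t) (r t) = P.step A x (runFrom P A x v r' t) (r' t)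
    rw [ih fun i hi => h i (by omega), h t (by omega)]

open Classical in
/-- acceptance from the configuration `u` at the time `t` -/
noncomputable def ff (P : Prog) (x : List Bool) (t u : ℕ) (r : ℕ → Bool) : ℝ :=
  if runFrom P empty x (dec (P.bound x.length + 1) u) r (P.bound x.length - t) 0 ≠ 0 then 1 else 0

/-- the probability of acceptance from the configuration `u` at the time `t` -/
noncomputable def pr (P : Prog) (x : List Bool) (t u : ℕ) : ℝ :=
  Ex (P.bound x.length + 1) (ff P x t u)

section

variable (P : Prog) (x : List Bool)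

theorem ff_01 (t u : ℕ) (r : ℕ → Bool) : ff P x t u r = 0 ∨ ff P x t u r = 1 := by
  unfold ff
  split_ifs
  · exact Or.inr rfl
  · exact Or.inl rfl

theorem ff_dep' (t u : ℕ) : DepOn (P.bound x.length - t) (ff P x t u) := by
  intro r r' h
  unfold ff
  rw [from_congr P empty x _ h]

theorem ff_dep (t u : ℕ) : DepOn (P.bound x.length + 1) (ff P x t u) :=
  (ff_dep' P x t u).mono (by omega)

theorem ff_cns {t : ℕ} (ht : t < P.bound x.length) (u : ℕ) (b : Bool) (r : ℕ → Bool) :
    ff P x t u (cns b r) = ff P x (t + 1) (nxt P x u b) r := by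
  unfold ff
  rw [show P.bound x.length - t = (P.bound x.length - (t + 1)) + 1 by omega, from_succ',
    dec_nxt P x u b]
  have h1 : sh 1 (cns b r) = r := by
    rw [show (1 : ℕ) = 0 + 1 from rfl, sh_cns]
    funext i
    unfold sh
    rw [Nat.zero_add]
  rw [h1]
  rfl

theorem pr_succ {t : ℕ} (ht : t < P.bound x.length) (u : ℕ) :
    pr P x t u = (pr P x (t + 1) (nxt P x u false) + pr P x (t + 1) (nxt P x u true)) / 2 := by
  unfold pr
  have h0 : ∀ b, (fun r => ff P x t u (cns b r)) = ff P x (t + 1) (nxt P x u b) := fun b =>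
    funext fun r => ff_cns P x ht u b r
  have h1 : ∀ b, Ex (P.bound x.length) (ff P x (t + 1) (nxt P x u b)) =
      Ex (P.bound x.length + 1) (ff P x (t + 1) (nxt P x u b)) := by
    intro b
    rw [ex_ext (Nat.le_succ _) _ ((ff_dep' P x (t + 1) (nxt P x u b)).mono (by omega))]
  rw [← h1 false, ← h1 true, ← h0 false, ← h0 true]
  rfl

theorem pr_last (u : ℕ) : pr P x (P.bound x.length) u =
    if u % (P.bound x.length + 1) ≠ 0 then 1 else 0 := by
  unfold pr
  have h1 : ff P x (P.bound x.length) u =
      fun _ => if u % (P.bound x.length + 1) ≠ 0 then 1 else 0 := by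
    funext r
    unfold ff
    rw [Nat.sub_self]
    change (if dec (P.bound x.length + 1) u 0 ≠ 0 then (1 : ℝ) else 0) = _
    unfold dec
    rw [pow_zero, Nat.div_one]
  rw [h1, ex_const]

theorem pr_zero : pr P x 0 0 = P.prob empty x := by
  classical
  rw [prob_ex]
  unfold pr
  have h1 : ff P x 0 0 = fun r => if P.Acc empty x r then 1 else 0 := by
    funext r
    unfold ff
    have h2 : dec (P.bound x.length + 1) 0 = fun _ => 0 := funext fun i => dec_zero _ i
    rw [h2, Nat.sub_zero, from_zero]
    exact if_congr Iff.rfl rfl rfl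
  rw [← h1]
  exact ex_ext (Nat.le_succ _) _ (ff_dep' P x 0 0)

/-- the precision -/
def gg : ℕ := 24 * (P.bound x.length + 1)

/-- the number of trials -/
def rr : ℕ := 3 * gg P x ^ 2

theorem gg_pos : 0 < gg P x := by unfold gg; omega

end

/-! ### The program -/

/-- the precision -/
def gE (P : Prog) : Expr := .mul (.const 24) (bE P)

/-- the number of trials -/
def rE (P : Prog) : Expr := .mul (.const 3) (powE (gE P) 2)

section

variable {P : Prog} {W : ℕ} {x : List Bool} {A : ℕ → Bool} {v : ℕ → ℕ} {b : Bool}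

theorem eval_gE : (gE P).eval W x A v b = gg P x := by
  change 24 * (bE P).eval W x A v b = _
  rw [eval_bE]
  rfl

theorem eval_rE : (rE P).eval W x A v b = rr P x := by
  change 3 * (powE (gE P) 2).eval W x A v b = _
  rw [eval_powE, eval_gE]
  rfl

/-- an exponent for the parameters -/
def dS (P : Prog) : ℕ := (P.c + 3) + (P.c + 2) * P.code.length + (P.c + 7)

/-- an exponent for the number of trials -/
def gS (P : Prog) : ℕ := 2 + 2 * (P.c + 7)

theorem base_le (P : Prog) (n : ℕ) : P.bound n + 1 ≤ (n + 2) ^ (P.c + 2) := by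
  have h1 := P.bound_ge n
  have h2 : (n + 2) ^ (P.c + 2) = P.bound n * (n + 2) := pow_succ _ _
  rw [h2]
  nlinarith

theorem mm_le (P : Prog) (x : List Bool) :
    mm P x ≤ (x.length + 2) ^ ((P.c + 2) * P.code.length) := by
  unfold mm
  rw [pow_mul]
  exact Nat.pow_le_pow_left (base_le P _) _

theorem gg_le (P : Prog) (x : List Bool) : gg P x ≤ (x.length + 2) ^ (P.c + 7) := by
  have h1 := base_le P x.length
  have h2 : 2 ^ 5 ≤ (x.length + 2) ^ 5 := Nat.pow_le_pow_left (by omega) _
  unfold gg
  calc 24 * (P.bound x.length + 1) ≤ 2 ^ 5 * (x.length + 2) ^ (P.c + 2) :=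
        Nat.mul_le_mul (by norm_num) h1
    _ ≤ (x.length + 2) ^ 5 * (x.length + 2) ^ (P.c + 2) := Nat.mul_le_mul_right _ h2
    _ = _ := by rw [← pow_add]; congr 1; omega

theorem rr_le (P : Prog) (x : List Bool) : rr P x ≤ (x.length + 2) ^ gS P := by
  have h2 : 2 ^ 2 ≤ (x.length + 2) ^ 2 := Nat.pow_le_pow_left (by omega) _
  unfold rr gS
  calc 3 * gg P x ^ 2 ≤ (x.length + 2) ^ 2 * ((x.length + 2) ^ (P.c + 7)) ^ 2 :=
        Nat.mul_le_mul (by omega) (Nat.pow_le_pow_left (gg_le P x) _)
    _ = _ := by rw [← pow_mul, ← pow_add]; congr 1; omega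

/-- the number of parameters `t * mm + u` -/
def k2 (P : Prog) (x : List Bool) : ℕ := (P.bound x.length + 2) * mm P x

/-- the number of parameters -/
def k1 (P : Prog) (x : List Bool) : ℕ := k2 P x * gg P x

theorem k2_le (P : Prog) (x : List Bool) :
    k2 P x ≤ (x.length + 2) ^ ((P.c + 3) + (P.c + 2) * P.code.length) := by
  have h1 : P.bound x.length + 2 ≤ (x.length + 2) ^ (P.c + 3) := by
    have h2 := base_le P x.length
    have h3 : 1 ≤ (x.length + 2) ^ (P.c + 2) := Nat.one_le_pow _ _ (by omega)
    rw [pow_succ]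
    nlinarith
  unfold k2
  rw [pow_add]
  exact Nat.mul_le_mul h1 (mm_le P x)

theorem k1_le (P : Prog) (x : List Bool) : k1 P x ≤ (x.length + 2) ^ dS P := by
  unfold k1 dS
  rw [pow_add]
  exact Nat.mul_le_mul (k2_le P x) (gg_le P x)

/-- the configuration -/
def uX (P : Prog) : Expr := .mod (.div (.reg 2) (gE P)) (mE P)

/-- the time -/
def tX (P : Prog) : Expr := .div (.div (.reg 2) (gE P)) (mE P)

/-- the threshold -/
def jX (P : Prog) : Expr := .mod (.reg 2) (gE P)

theorem eval_uX : (uX P).eval W x A v b = v 2 / gg P x % mm P x := by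
  change v 2 / (gE P).eval W x A v b % (mE P).eval W x A v b = _
  rw [eval_gE, eval_mE]

theorem eval_tX : (tX P).eval W x A v b = v 2 / gg P x / mm P x := by
  change v 2 / (gE P).eval W x A v b / (mE P).eval W x A v b = _
  rw [eval_gE, eval_mE]

theorem eval_jX : (jX P).eval W x A v b = v 2 % gg P x := by
  change v 2 % (gE P).eval W x A v b = _
  rw [eval_gE]

/-- The loop for the sampling program. -/
def sampLoop (P : Prog) : Loop where
  s₁ := .const 1
  s₂ := .orc (.reg 2)
  L := .len
  C := .coin
  I := .inp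
  O := fun _ => .const 0
  V := fun i => .mod (.div (uX P) (powE (bE P) i)) (bE P)
  T₀ := tX P
  N := rE P
  a := fun k => if k = 0 then .ite (.const 1) (.reg 7) (.add (.reg 4) (.const 1)) (.reg 4)
    else .const 0
  Out := .ite (.mul (.add (.mul (.const 2) (jX P)) (.const 1)) (rE P))
    (.mul (.mul (.const 2) (gE P)) (.reg 4)) (.const 1) (.const 0)
  c' := dS P + gS P + 0 + P.c + 5

/-- The sampling program. -/
def samp (P : Prog) : Prog := (sampLoop P).prog P

/-- the number of accepting trials -/
def hits (P : Prog) (x : List Bool) (m : ℕ) (r : ℕ → Bool) (J : ℕ) : ℕ :=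
  ∑ ρ ∈ Finset.range J, if runFrom P empty x (dec (P.bound x.length + 1) (m / gg P x % mm P x))
    (fun τ => r (m + ρ * (P.bound x.length + 1) + τ)) (P.bound x.length - m / gg P x / mm P x) 0
      ≠ 0 then 1 else 0

theorem hits_le (m : ℕ) (r : ℕ → Bool) (J : ℕ) : hits P x m r J ≤ J := by
  unfold hits
  calc _ ≤ ∑ ρ ∈ Finset.range J, 1 := by
        refine Finset.sum_le_sum fun ρ _ => ?_
        split_ifs <;> omega
    _ = J := by simp

theorem samp_acc {m : ℕ} (hm : m < (x.length + 2) ^ dS P) (r : ℕ → Bool) :
    (samp P).Acc (up m) x r ↔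
      (2 * (m % gg P x) + 1) * rr P x ≤ 2 * gg P x * hits P x m r (rr P x) := by
  have hbd : (samp P).bound x.length = (x.length + 2) ^ (dS P + gS P + 0 + P.c + 5 + 1) := rfl
  have htime : m + rr P x * (P.bound x.length + 1) + 1 ≤
      (x.length + 2) ^ (dS P + gS P + 0 + P.c + 5 + 1) := time_le hm (rr_le P x) le_rfl
  have hOK : (sampLoop P).OK P (up m) x r m x.length
      (rr P x) (fun _ => x) (fun _ => empty)
      (fun _ => dec (P.bound x.length + 1) (m / gg P x % mm P x)) (fun _ => m / gg P x / mm P x)
      (fun b => b) (fun J k => if k = 0 then hits P x m r J else 0)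
      (if (2 * (m % gg P x) + 1) * rr P x ≤ 2 * gg P x * hits P x m r (rr P x) then 1 else 0) :=
    { scan := fun v b h => scan_up v b h
      stop := fun v b h => stop_up (by
        change m ≤ (samp P).bound x.length
        rw [hbd]
        omega) v b h
      lenx := fun _ _ => rfl
      len := fun _ _ _ => rfl
      coin := fun _ _ => rfl
      inp := fun _ _ _ _ _ => rfl
      orc := fun _ _ _ _ _ _ => rfl
      ini := by
        intro v b h2 _ i
        change (uX P).eval _ x _ v b / (powE (bE P) i).eval _ x _ v b % (bE P).eval _ x _ v b = _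
        rw [eval_uX, eval_powE, eval_bE, h2]
        rfl
      inile := by
        intro _ _ i
        exact Nat.lt_succ_iff.1 (Nat.mod_lt _ (Nat.succ_pos _))
      zero := by
        intro _ _ _ i hi
        unfold dec
        have h1 : m / gg P x % mm P x < mm P x := Nat.mod_lt _ (mm_pos P x)
        have h2 : mm P x ≤ (P.bound x.length + 1) ^ i := Nat.pow_le_pow_right (Nat.succ_pos _) hi
        rw [Nat.div_eq_of_lt (h1.trans_le h2), Nat.zero_mod]
      st := by
        intro v b h2 _
        change (tX P).eval _ x _ v b = _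
        rw [eval_tX, h2]
      num := by
        intro v b _
        exact eval_rE
      acc0 := by
        intro k _
        simp [hits]
      accS := by
        intro j hj k hk v b h2 h3 h4 h7
        by_cases h0 : k = 0
        · subst h0
          simp only [sampLoop, if_true]
          have h40 := h4 0 (by omega)
          rw [if_pos rfl] at h40
          unfold hits at h40 ⊢
          rw [Finset.sum_range_succ, ← h40]
          unfold res at h7
          by_cases hr : v 7 = 0
          · rw [if_neg (not_not.2 (h7.symm.trans hr)), eval_ite_neg (by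
              change ¬ 1 ≤ v 7
              omega)]
            rfl
          · rw [if_pos (fun h => hr (h7.trans h)), eval_ite_pos (by
              change 1 ≤ v 7
              omega)]
            rfl
        · simp only [sampLoop, if_neg h0]
          rfl
      accle := by
        intro j hj k hk
        split_ifs
        · refine (hits_le m r j).trans ?_
          change j ≤ (samp P).bound x.length
          rw [hbd]
          nlinarith
        · exact Nat.zero_le _
      out := by
        intro v b h2 h3 h4
        have h40 := h4 0 (by omega)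
        rw [if_pos rfl] at h40
        have e0 : (sampLoop P).Out = .ite (.mul (.add (.mul (.const 2) (jX P)) (.const 1)) (rE P))
            (.mul (.mul (.const 2) (gE P)) (.reg 4)) (.const 1) (.const 0) := rfl
        rw [e0]
        have e1 : (Expr.mul (.add (.mul (.const 2) (jX P)) (.const 1)) (rE P)).eval
            (((sampLoop P).prog P).bound x.length) x (up m) v b =
            (2 * (m % gg P x) + 1) * rr P x := by
          change (2 * (jX P).eval _ x _ v b + 1) * (rE P).eval _ x _ v b = _
          rw [eval_jX, eval_rE, h2]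
        have e2 : (Expr.mul (.mul (.const 2) (gE P)) (.reg 4)).eval
            (((sampLoop P).prog P).bound x.length) x (up m) v b =
            2 * gg P x * hits P x m r (rr P x) := by
          change 2 * (gE P).eval _ x _ v b * v (0 + 4) = _
          rw [eval_gE, h40]
        split_ifs with h
        · exact eval_ite_pos (by rw [e1, e2]; exact h)
        · exact eval_ite_neg (by rw [e1, e2]; exact h)
      time := htime }
  have h := hOK.result
  unfold Prog.Acc
  change (((sampLoop P).prog P).run (up m) x r (((sampLoop P).prog P).bound x.length) 0 ≠ 0) ↔ _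
  rw [h]
  have hpos := ((sampLoop P).prog P).bound_ge x.length
  split_ifs with hc
  · rw [min_eq_left (by omega)]
    simp [hc]
  · simp [hc]

theorem hits_eq (m : ℕ) (r : ℕ → Bool) (J : ℕ) : (hits P x m r J : ℝ) =
    Xs (P.bound x.length + 1) (ff P x (m / gg P x / mm P x) (m / gg P x % mm P x)) J (sh m r) := by
  unfold hits Xs
  push_cast
  refine Finset.sum_congr rfl fun ρ _ => ?_
  unfold ff
  have h1 : (fun τ => r (m + ρ * (P.bound x.length + 1) + τ)) =
      sh (ρ * (P.bound x.length + 1)) (sh m r) := by
    funext τ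
    unfold sh
    rw [Nat.add_assoc]
  rw [h1]

open Classical in
theorem samp_prob {m : ℕ} (hm : m < (x.length + 2) ^ dS P) : (samp P).prob (up m) x =
    Ex (rr P x * (P.bound x.length + 1)) (fun r => if (2 * (m % gg P x : ℕ) + 1) * (rr P x : ℝ) ≤
      2 * gg P x * Xs (P.bound x.length + 1) (ff P x (m / gg P x / mm P x) (m / gg P x % mm P x))
        (rr P x) r then 1 else 0) := by
  have htime : m + rr P x * (P.bound x.length + 1) + 1 ≤
      (x.length + 2) ^ (dS P + gS P + 0 + P.c + 5 + 1) := time_le hm (rr_le P x) le_rfl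
  have hbd : (samp P).bound x.length = (x.length + 2) ^ (dS P + gS P + 0 + P.c + 5 + 1) := rfl
  refine Eq.trans ?_ (ex_shift m (rr P x * (P.bound x.length + 1)) _)
  rw [prob_ex]
  have h1 : (fun r => if (samp P).Acc (up m) x r then (1 : ℝ) else 0) = fun r =>
      if (2 * (m % gg P x : ℕ) + 1) * (rr P x : ℝ) ≤
      2 * gg P x * Xs (P.bound x.length + 1) (ff P x (m / gg P x / mm P x) (m / gg P x % mm P x))
        (rr P x) (sh m r) then 1 else 0 := by
    funext r
    rw [← hits_eq]
    have h2 := samp_acc hm r
    by_cases h : (2 * (m % gg P x) + 1) * rr P x ≤ 2 * gg P x * hits P x m r (rr P x)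
    · rw [if_pos (h2.2 h), if_pos]
      exact_mod_cast h
    · rw [if_neg (fun h3 => h (h2.1 h3)), if_neg]
      intro h4
      exact h (by exact_mod_cast h4)
  rw [h1]
  refine ex_ext (by rw [hbd]; omega) _ fun r r' H => ?_
  rw [xs_dep (ff_dep P x _ _) (rr P x) (sh m r) (sh m r') fun i hi => H _ (by omega)]

theorem samp_ge {m : ℕ} (hm : m < (x.length + 2) ^ dS P)
    (h : ((m % gg P x : ℕ) + 1 : ℝ) / gg P x ≤ pr P x (m / gg P x / mm P x) (m / gg P x % mm P x)) :
    2 / 3 ≤ (samp P).prob (up m) x := by
  classical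
  rw [samp_prob hm]
  have hG : (0 : ℝ) < gg P x := by exact_mod_cast gg_pos P x
  have hR : (rr P x : ℝ) = 3 * (gg P x : ℝ) ^ 2 := by unfold rr; push_cast; ring
  have hRpos : (0 : ℝ) < rr P x := by rw [hR]; positivity
  rw [div_le_iff₀ hG] at h
  have hch := chebyshev (ff_dep P x (m / gg P x / mm P x) (m / gg P x % mm P x)) (p := pr P x
    (m / gg P x / mm P x) (m / gg P x % mm P x)) rfl (ff_01 P x _ _) (rr P x)
    (δ := rr P x / (2 * gg P x)) (by positivity)
  have e1 : (rr P x : ℝ) / (4 * ((rr P x : ℝ) / (2 * gg P x)) ^ 2) = 1 / 3 := by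
    rw [hR]
    field_simp
    norm_num
  rw [e1] at hch
  set p := pr P x (m / gg P x / mm P x) (m / gg P x % mm P x) with hp
  have key : Ex (rr P x * (P.bound x.length + 1)) (fun r => 1 + (-1) *
      (if rr P x / (2 * gg P x) ≤ |Xs (P.bound x.length + 1)
        (ff P x (m / gg P x / mm P x) (m / gg P x % mm P x)) (rr P x) r - rr P x * p|
        then (1 : ℝ) else 0)) ≤ Ex (rr P x * (P.bound x.length + 1))
      (fun r => if (2 * (m % gg P x : ℕ) + 1) * (rr P x : ℝ) ≤
      2 * gg P x * Xs (P.bound x.length + 1) (ff P x (m / gg P x / mm P x) (m / gg P x % mm P x))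
        (rr P x) r then 1 else 0) := by
    refine ex_mono _ _ _ fun r => ?_
    generalize Xs (P.bound x.length + 1)
        (ff P x (m / gg P x / mm P x) (m / gg P x % mm P x)) (rr P x) r = X
    by_cases h1 : (2 * (m % gg P x : ℕ) + 1) * (rr P x : ℝ) ≤ 2 * gg P x * X
    · rw [if_pos h1]
      split_ifs <;> norm_num
    · rw [if_neg h1, if_pos]
      · norm_num
      · push Not at h1
        rw [abs_sub_comm]
        refine le_trans ?_ (le_abs_self _)
        rw [div_le_iff₀ (by positivity)]
        have h2 : (((m % gg P x : ℕ) : ℝ) + 1) * rr P x ≤ p * gg P x * rr P x :=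
          mul_le_mul_of_nonneg_right h hRpos.le
        nlinarith
  rw [ex_add, ex_const, ex_mul] at key
  linarith

theorem samp_le {m : ℕ} (hm : m < (x.length + 2) ^ dS P)
    (h : pr P x (m / gg P x / mm P x) (m / gg P x % mm P x) ≤ ((m % gg P x : ℕ) : ℝ) / gg P x) :
    (samp P).prob (up m) x ≤ 1 / 3 := by
  classical
  rw [samp_prob hm]
  have hG : (0 : ℝ) < gg P x := by exact_mod_cast gg_pos P x
  have hR : (rr P x : ℝ) = 3 * (gg P x : ℝ) ^ 2 := by unfold rr; push_cast; ring
  have hRpos : (0 : ℝ) < rr P x := by rw [hR]; positivity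
  rw [le_div_iff₀ hG] at h
  have hch := chebyshev (ff_dep P x (m / gg P x / mm P x) (m / gg P x % mm P x)) (p := pr P x
    (m / gg P x / mm P x) (m / gg P x % mm P x)) rfl (ff_01 P x _ _) (rr P x)
    (δ := rr P x / (2 * gg P x)) (by positivity)
  have e1 : (rr P x : ℝ) / (4 * ((rr P x : ℝ) / (2 * gg P x)) ^ 2) = 1 / 3 := by
    rw [hR]
    field_simp
    norm_num
  rw [e1] at hch
  set p := pr P x (m / gg P x / mm P x) (m / gg P x % mm P x) with hp
  refine le_trans (ex_mono _ _ _ fun r => ?_) hch
  generalize Xs (P.bound x.length + 1)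
      (ff P x (m / gg P x / mm P x) (m / gg P x % mm P x)) (rr P x) r = X
  by_cases h1 : (2 * (m % gg P x : ℕ) + 1) * (rr P x : ℝ) ≤ 2 * gg P x * X
  · rw [if_pos h1, if_pos]
    refine le_trans ?_ (le_abs_self _)
    rw [div_le_iff₀ (by positivity)]
    have h2 : p * gg P x * rr P x ≤ ((m % gg P x : ℕ) : ℝ) * rr P x :=
      mul_le_mul_of_nonneg_right h hRpos.le
    nlinarith
  · rw [if_neg h1]
    split_ifs <;> norm_num

end

end Pool.Agent.L0h58.KL
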