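import Pool.Agent.L0h58.KL.Top

/-!
# Selective sets
-/

set_option autoImplicit false

namespace Pool.Agent.L0h58.KL

open Pool.Agent.L0h58.RL Pool.Agent.L0h58.CA

/-! ### Sets in `L` are selective -/

/-- the program which runs `D` on the first half of its input -/
def halfProg (D : Prog) : Prog :=
  simProg D 0 (fun _ => false) (D.c + 1) (.const 1) (.const 0) (.div .len (.const 2))
    (fun e => .ite (.add e (.const 1)) (.div .len (.const 2)) (.inp e) (.const 2))
    (fun _ => .const 0)

theorem halfProg_acc (D : Prog) {y z : List Bool} (h : y.length = z.length) :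
    (halfProg D).Acc empty (y ++ z) (fun _ => false) ↔ D.Acc empty y (fun _ => false) := by
  have hl : (y ++ z).length / 2 = y.length := by
    rw [List.length_append]
    omega
  refine simProg_acc 0 _ (Nat.zero_le _) (s := 0) ?_ _
  refine
    { scan := no_scan'
      stop := no_scan
      len := fun _ _ _ => hl
      inp := ?_
      orc := fun _ _ _ _ _ => rfl
      time := ?_ }
  · intro v b _ e
    by_cases h1 : e.eval (((y ++ z).length + 2) ^ (D.c + 1 + 1)) (y ++ z) empty v b < y.length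
    · rw [eval_ite_pos (by
        change _ + 1 ≤ (y ++ z).length / 2
        rw [hl]
        exact h1)]
      change inputAt (y ++ z) _ = inputAt y _
      unfold inputAt
      rw [List.getElem?_append_left h1]
    · rw [eval_ite_neg (by
        change ¬ _ + 1 ≤ (y ++ z).length / 2
        rw [hl]
        exact h1), inputAt_of_ge (not_lt.1 h1)]
      rfl
  · have h1 : D.bound y.length ≤ ((y ++ z).length + 2) ^ (D.c + 1) := by
      refine Nat.pow_le_pow_left ?_ _
      rw [List.length_append]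
      omega
    have h2 : 1 ≤ ((y ++ z).length + 2) ^ (D.c + 1) := Nat.one_le_pow _ _ (by omega)
    rw [pow_succ]
    nlinarith

theorem selective_of_promiseL {Y N : Set (List Bool)} (h : PromiseL Y N) :
    ∃ S : Set (List Bool), (∀ x ∈ Y, x ∈ S) ∧ (∀ x ∈ N, x ∉ S) ∧ LSelective S := by
  obtain ⟨D, h1, h2⟩ := h
  refine ⟨{x | D.Acc empty x fun _ => false}, h1, h2, halfProg D, fun y z hyz => ⟨fun ha _ => ?_,
    fun ha hor => ?_⟩⟩
  · exact (halfProg_acc D hyz).1 ha
  · rcases hor with h | h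
    · exact absurd ((halfProg_acc D hyz).2 h) ha
    · exact h

/-! ### Tournaments -/

theorem exists_king (T : ℕ → ℕ → Prop) (hr : ∀ i, T i i) (ht : ∀ i j, i ≠ j → T i j ∨ T j i)
    (F : Finset ℕ) (hF : F.Nonempty) : ∃ y ∈ F, ∀ i ∈ F, ∃ z ∈ F, T i z ∧ T z y := by
  classical
  obtain ⟨y, hy, hmax⟩ := F.exists_max_image (fun y => (F.filter fun z => T z y).card) hF
  refine ⟨y, hy, fun i hi => ?_⟩
  by_contra hcon
  push Not at hcon
  have h1 : i ∉ F.filter fun z => T z y := by
    intro h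
    exact hcon i hi (hr i) (Finset.mem_filter.1 h).2
  have h2 : (F.filter fun z => T z y) ⊂ F.filter fun z => T z i := by
    rw [Finset.ssubset_iff]
    refine ⟨i, h1, fun z hz => ?_⟩
    rw [Finset.mem_insert] at hz
    rcases hz with rfl | hz
    · exact Finset.mem_filter.2 ⟨hi, hr z⟩
    · have hzF := (Finset.mem_filter.1 hz).1
      have hzy := (Finset.mem_filter.1 hz).2
      refine Finset.mem_filter.2 ⟨hzF, ?_⟩
      have hne : i ≠ z := fun h => h1 (by rw [h]; exact hz)
      rcases ht i z hne with h | h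
      · exact absurd hzy (hcon z hzF h)
      · exact h
  have h3 := Finset.card_lt_card h2
  have h4 := hmax i hi
  omega

/-! ### The program -/

section

variable (P D : Prog)

/-- the two instances with the numbers `m / k1 % k1` and `m % k1` -/
def zz2 (x : List Bool) (m : ℕ) : List Bool :=
  zz P x (m / k1 P x % k1 P x) ++ zz P x (m % k1 P x)

/-- the answer of the selector -/
def R0 (x : List Bool) (m : ℕ) : ℕ :=
  if runFrom D empty (zz2 P x m) (fun _ => 0) (fun _ => false) (D.bound (2 * ln P x.length)) 0 ≠ 0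
    then 1 else 0

theorem comp_R0 (d : ℕ) : ∃ Q : Prog, Comp d Q (R0 P D) := by
  refine ⟨_, comp_call D (zz2 P) (fun _ _ _ => 0) (.mul (.const 2) (lenE (samp P)))
    (fun n => 2 * ln P n)
    (fun e => .ite (.add e (.const 1)) (lenE (samp P))
      (syU (samp P) (.mod (.div (.reg 2) (k1E P)) (k1E P)) e)
      (syU (samp P) (.mod (.reg 2) (k1E P)) (.sub e (lenE (samp P)))))
    (fun _ => .const 0) (((samp P).c + 4) * (D.c + 1)) d ?_ ?_ ?_ ?_ ?_ ?_⟩
  · intro x m
    unfold zz2
    rw [List.length_append, length_zz, length_zz]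
    omega
  · intro W x A v b
    change 2 * (lenE (samp P)).eval W x A v b = _
    rw [eval_lenE]
    rfl
  · intro W x A v b e
    have hlen : (lenE (samp P)).eval W x A v b = ln P x.length := eval_lenE _ _ _ _ _
    have hz := length_zz P x (v 2 / k1 P x % k1 P x)
    unfold zz2
    by_cases h : e.eval W x A v b < ln P x.length
    · rw [eval_ite_pos (by rw [hlen]; exact h), eval_syU]
      change inputAt (enc _ x (up (v 2 / (k1E P).eval _ x _ v b % (k1E P).eval _ x _ v b))) _ = _
      rw [eval_k1E]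
      unfold inputAt
      rw [List.getElem?_append_left (by rw [hz]; exact h)]
      rfl
    · rw [eval_ite_neg (by rw [hlen]; exact h), eval_syU]
      change inputAt (enc _ x (up (v 2 % (k1E P).eval _ x _ v b)))
        (e.eval W x A v b - (lenE (samp P)).eval W x A v b) = _
      rw [eval_k1E, hlen]
      unfold inputAt
      rw [List.getElem?_append_right (by rw [hz]; exact not_lt.1 h), hz]
      rfl
  · intro W x A v b i
    rfl
  · intro x m i
    exact Nat.zero_le _
  · intro n
    have h1 := (samp P).bound_ge n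
    have h2 : 2 * ln P n + 2 ≤ (n + 2) ^ ((samp P).c + 4) := by
      have h3 : (n + 2) ^ ((samp P).c + 4) = (samp P).bound n * ((n + 2) * ((n + 2) * (n + 2))) := by
        unfold Prog.bound
        ring
      rw [h3]
      have h4 : 4 ≤ (n + 2) * (n + 2) := by nlinarith
      have h6 : 8 ≤ (n + 2) * ((n + 2) * (n + 2)) := by nlinarith
      have h5 : (samp P).bound n * 8 ≤ (samp P).bound n * ((n + 2) * ((n + 2) * (n + 2))) :=
        Nat.mul_le_mul_left _ h6
      unfold ln
      omega
    calc D.bound (2 * ln P n) ≤ ((n + 2) ^ ((samp P).c + 4)) ^ (D.c + 1) :=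
          Nat.pow_le_pow_left h2 _
      _ = (n + 2) ^ (((samp P).c + 4) * (D.c + 1)) := (pow_mul _ _ _).symm
      _ ≤ _ := Nat.pow_le_pow_right (by omega) (by omega)

/-- the arguments for the selector: the smaller number comes first -/
def pT (x : List Bool) (m : ℕ) : ℕ :=
  if m / k1 P x % k1 P x ≤ m % k1 P x then (m / k1 P x % k1 P x) * k1 P x + m % k1 P x
  else (m % k1 P x) * k1 P x + m / k1 P x % k1 P x

/-- the tournament, given the answer `r` of the selector -/
def fT (x : List Bool) (m r : ℕ) : ℕ :=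
  if m / k1 P x % k1 P x ≤ m % k1 P x then
    (if m % k1 P x ≤ m / k1 P x % k1 P x then 1 else r) else 1 - r

/-- The tournament: `T (i * k1 + j) = 1` if `i` is chosen from `i` and `j`. -/
def TT (x : List Bool) (m : ℕ) : ℕ :=
  ∑ _j ∈ Finset.range 1, fT P x m (R0 P D x (pT P x m))

/-- the number `m / k1 % k1` -/
def iE (P : Prog) : Expr := .mod (.div (.reg 2) (k1E P)) (k1E P)

/-- the number `m % k1` -/
def jE' (P : Prog) : Expr := .mod (.reg 2) (k1E P)

variable {P} in
theorem eval_iE {W : ℕ} {x : List Bool} {A : ℕ → Bool} {v : ℕ → ℕ} {b : Bool} :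
    (iE P).eval W x A v b = v 2 / k1 P x % k1 P x := by
  change v 2 / (k1E P).eval W x A v b % (k1E P).eval W x A v b = _
  rw [eval_k1E]

variable {P} in
theorem eval_jE' {W : ℕ} {x : List Bool} {A : ℕ → Bool} {v : ℕ → ℕ} {b : Bool} :
    (jE' P).eval W x A v b = v 2 % k1 P x := by
  change v 2 % (k1E P).eval W x A v b = _
  rw [eval_k1E]

theorem R0_le (x : List Bool) (m : ℕ) : R0 P D x m ≤ 1 := by
  unfold R0
  split_ifs <;> omega

variable {P} in
theorem pair_lt {x : List Bool} {i j : ℕ} (hi : i < k1 P x) (hj : j < k1 P x) :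
    i * k1 P x + j < (x.length + 2) ^ (2 * dS P) := by
  have h1 := k1_le P x
  have h2 : (i + 1) * k1 P x ≤ k1 P x * k1 P x := Nat.mul_le_mul_right _ hi
  have h3 : k1 P x * k1 P x ≤ (x.length + 2) ^ dS P * (x.length + 2) ^ dS P :=
    Nat.mul_le_mul h1 h1
  rw [← pow_add, ← two_mul] at h3
  nlinarith

theorem comp_TT (d : ℕ) : ∃ Q : Prog, Comp d Q (TT P D) := by
  obtain ⟨Q, hQ⟩ := comp_R0 P D (2 * dS P)
  refine comp_sum hQ d 0 0
    (.ite (iE P) (jE' P) (.add (.mul (iE P) (k1E P)) (jE' P))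
      (.add (.mul (jE' P) (k1E P)) (iE P))) (.const 1)
    (.ite (iE P) (jE' P) (.ite (jE' P) (iE P) (.const 1) (.reg 7)) (.sub (.const 1) (.reg 7)))
    (fun x m _ => pT P x m) (fun _ => 1) (fun x m _ r => fT P x m r) ?_ ?_ ?_ ?_ ?_ ?_
  · intro W x A v b
    unfold pT
    simp only [Expr.eval, eval_iE, eval_jE', eval_k1E]
  · intro W x A v b
    rfl
  · intro W x A v b
    unfold fT
    simp only [Expr.eval, eval_iE, eval_jE']
  · intro x m j _ _
    have h1 : m / k1 P x % k1 P x < k1 P x := Nat.mod_lt _ k1_pos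
    have h2 : m % k1 P x < k1 P x := Nat.mod_lt _ k1_pos
    unfold pT
    split_ifs
    · exact pair_lt h1 h2
    · exact pair_lt h2 h1
  · intro n
    simp
  · intro x m j _ _
    have := R0_le P D x (pT P x m)
    unfold fT
    split_ifs <;> simp <;> omega

theorem TT_le (x : List Bool) (m : ℕ) : TT P D x m ≤ 1 := by
  unfold TT
  rw [Finset.sum_range_one]
  have := R0_le P D x (pT P x m)
  unfold fT
  split_ifs <;> omega

/-- the product -/
def fG (a b : ℕ) : ℕ := if 1 ≤ a then (if 1 ≤ b then 1 else 0) else 0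

/-- the arguments -/
def pG (x : List Bool) (m j : ℕ) : ℕ :=
  if j ≤ 0 then (m / k1 P x % k1 P x) * k1 P x + m % k1 P x
  else (m % k1 P x) * k1 P x + m / k1 P x / k1 P x % k1 P x

/-- two steps in the tournament -/
def GG (x : List Bool) (m : ℕ) : ℕ := fG (TT P D x (pG P x m 0)) (TT P D x (pG P x m 1))

theorem fG_le (a b : ℕ) : fG a b ≤ 1 := by
  unfold fG
  split_ifs <;> omega

theorem comp_GG (d : ℕ) : ∃ Q : Prog, Comp d Q (GG P D) := by
  obtain ⟨Q, hQ⟩ := comp_TT P D (2 * dS P)
  refine comp_three hQ d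
    (.ite (.reg 3) (.const 0) (.add (.mul (iE P) (k1E P)) (jE' P))
      (.add (.mul (jE' P) (k1E P)) (.mod (.div (.div (.reg 2) (k1E P)) (k1E P)) (k1E P))))
    (.ite (.const 1) (.reg 4) (.ite (.const 1) (.reg 5) (.const 1) (.const 0)) (.const 0))
    (fun x m j => pG P x m j) (fun _ _ a b _ => fG a b) ?_ ?_ ?_ ?_
  · intro W x A v b
    unfold pG
    simp only [Expr.eval, eval_iE, eval_jE', eval_k1E]
  · intro W x A v b
    rfl
  · intro x m j _ _
    have h1 : m / k1 P x % k1 P x < k1 P x := Nat.mod_lt _ k1_pos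
    have h2 : m % k1 P x < k1 P x := Nat.mod_lt _ k1_pos
    have h3 : m / k1 P x / k1 P x % k1 P x < k1 P x := Nat.mod_lt _ k1_pos
    unfold pG
    split_ifs
    · exact pair_lt h1 h2
    · exact pair_lt h2 h3
  · intro x m a b c
    exact fG_le a b

/-- the number of intermediate points -/
def HH (x : List Bool) (m : ℕ) : ℕ :=
  ∑ z ∈ Finset.range (((P.bound x.length + 2) * (P.bound x.length + 1) ^ P.code.length) *
    (24 * (P.bound x.length + 1))), GG P D x (m * k1 P x + z)

theorem kk_le (n : ℕ) : ((P.bound n + 2) * (P.bound n + 1) ^ P.code.length) *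
    (24 * (P.bound n + 1)) ≤ (n + 2) ^ dS P := by
  have := k1_le P (List.replicate n true)
  rw [k1, k2, mm, gg, List.length_replicate] at this
  exact this

theorem eval_k1E' {W : ℕ} {x : List Bool} {A : ℕ → Bool} {v : ℕ → ℕ} {b : Bool} :
    (k1E P).eval W x A v b = ((P.bound x.length + 2) * (P.bound x.length + 1) ^ P.code.length) *
    (24 * (P.bound x.length + 1)) := by
  rw [eval_k1E]
  rfl

theorem comp_HH (d : ℕ) : ∃ Q : Prog, Comp d Q (HH P D) := by
  obtain ⟨Q, hQ⟩ := comp_GG P D (d + dS P)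
  refine comp_sum hQ d (dS P) 0 (.add (.mul (.reg 2) (k1E P)) (.reg 3)) (k1E P) (.reg 7)
    (fun x m j => m * k1 P x + j) (fun n => ((P.bound n + 2) * (P.bound n + 1) ^ P.code.length) *
    (24 * (P.bound n + 1))) (fun _ _ _ r => r) ?_ ?_ ?_ ?_ (kk_le P) ?_
  · intro W x A v b
    simp only [Expr.eval, eval_k1E]
  · intro W x A v b
    exact eval_k1E' P
  · intro W x A v b
    rfl
  · intro x m j hm hj
    have h1 := k1_le P x
    have h2 : (m + 1) * k1 P x ≤ (x.length + 2) ^ d * (x.length + 2) ^ dS P :=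
      Nat.mul_le_mul hm h1
    rw [← pow_add] at h2
    change j < k1 P x at hj
    nlinarith
  · intro x m j _ _
    exact (fG_le _ _).trans (by simp)

/-- the answer of the candidate `m / k1` to the question `m % k1` -/
def φS (x : List Bool) (m : ℕ) : ℕ :=
  ∑ _j ∈ Finset.range 1, if m / k1 P x + 1 ≤ k1 P x then (if 1 ≤ HH P D x m then 1 else 0) else 0

theorem φS_le (x : List Bool) (m : ℕ) : φS P D x m ≤ 1 := by
  unfold φS
  rw [Finset.sum_range_one]
  split_ifs <;> omega

theorem comp_φS (d : ℕ) : ∃ Q : Prog, Comp d Q (φS P D) := by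
  obtain ⟨Q, hQ⟩ := comp_HH P D d
  refine comp_sum hQ d 0 0 (.reg 2) (.const 1)
    (.ite (.add (.div (.reg 2) (k1E P)) (.const 1)) (k1E P)
      (.ite (.const 1) (.reg 7) (.const 1) (.const 0)) (.const 0))
    (fun x m _ => m) (fun _ => 1)
    (fun x m _ r => if m / k1 P x + 1 ≤ k1 P x then (if 1 ≤ r then 1 else 0) else 0) ?_ ?_ ?_ ?_ ?_
    ?_
  · intro W x A v b
    rfl
  · intro W x A v b
    rfl
  · intro W x A v b
    simp only [Expr.eval, eval_k1E] <;> rfl
  · intro x m j hm _
    exact hm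
  · intro n
    simp
  · intro x m j _ _
    split_ifs <;> simp

end

/-! ### Correctness -/

section

variable {P D : Prog} {x : List Bool}

theorem pair_div {i j : ℕ} (hj : j < k1 P x) (hi : i < k1 P x) :
    (i * k1 P x + j) / k1 P x % k1 P x = i := by
  rw [Nat.mul_comm, Nat.mul_add_div k1_pos, Nat.div_eq_of_lt hj, Nat.add_zero, Nat.mod_eq_of_lt hi]

theorem pair_mod {i j : ℕ} (hj : j < k1 P x) : (i * k1 P x + j) % k1 P x = j := by
  rw [Nat.mul_comm, Nat.mul_add_mod_self_left, Nat.mod_eq_of_lt hj]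

theorem R0_pair {i j : ℕ} (hi : i < k1 P x) (hj : j < k1 P x) : R0 P D x (i * k1 P x + j) = 1 ↔
    D.Acc empty (zz P x i ++ zz P x j) (fun _ => false) := by
  have hl : (zz P x i ++ zz P x j).length = 2 * ln P x.length := by
    rw [List.length_append, length_zz, length_zz]
    omega
  unfold R0 zz2 Prog.Acc
  rw [pair_div hj hi, pair_mod hj, from_zero, hl]
  split_ifs with h
  · simp [h]
  · simp [h]

/-- the tournament as a relation -/
def Tr (P D : Prog) (x : List Bool) (i j : ℕ) : Prop := TT P D x (i * k1 P x + j) = 1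

theorem Tr_eq {i j : ℕ} (hi : i < k1 P x) (hj : j < k1 P x) : Tr P D x i j ↔
    if i ≤ j then (if j ≤ i then True else R0 P D x (i * k1 P x + j) = 1)
      else R0 P D x (j * k1 P x + i) ≠ 1 := by
  unfold Tr TT fT pT
  rw [Finset.sum_range_one, pair_div hj hi, pair_mod hj]
  have h1 := R0_le P D x (j * k1 P x + i)
  split_ifs <;> simp <;> omega

theorem Tr_refl {i : ℕ} (hi : i < k1 P x) : Tr P D x i i := by
  rw [Tr_eq hi hi, if_pos le_rfl, if_pos le_rfl]
  trivial

theorem Tr_total {i j : ℕ} (hi : i < k1 P x) (hj : j < k1 P x) (hij : i ≠ j) :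
    Tr P D x i j ∨ Tr P D x j i := by
  rw [Tr_eq hi hj, Tr_eq hj hi]
  rcases Nat.lt_or_gt_of_ne hij with h | h
  · rw [if_pos h.le, if_neg (by omega), if_neg (by omega)]
    exact em _
  · rw [if_neg (by omega), if_pos (by omega), if_neg (by omega)]
    exact (em _).symm

theorem Tr_mem {S : Set (List Bool)} (hD : ∀ y z : List Bool, y.length = z.length →
    (D.Acc empty (y ++ z) (fun _ => false) → y ∈ S ∨ z ∈ S → y ∈ S) ∧
    (¬ D.Acc empty (y ++ z) (fun _ => false) → y ∈ S ∨ z ∈ S → z ∈ S))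
    {i j : ℕ} (hi : i < k1 P x) (hj : j < k1 P x) (h : Tr P D x i j) (hjS : zz P x j ∈ S) :
    zz P x i ∈ S := by
  rw [Tr_eq hi hj] at h
  split_ifs at h with h1 h2
  · obtain rfl : i = j := by omega
    exact hjS
  · rw [R0_pair hi hj] at h
    exact (hD _ _ (by rw [length_zz, length_zz])).1 h (Or.inr hjS)
  · rw [Ne, R0_pair hj hi] at h
    exact (hD _ _ (by rw [length_zz, length_zz])).2 h (Or.inl hjS)

theorem HH_pair {y m : ℕ} (hy : y < k1 P x) (hm : m < k1 P x) :
    1 ≤ HH P D x (y * k1 P x + m) ↔ ∃ z < k1 P x, Tr P D x m z ∧ Tr P D x z y := by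
  have hG : ∀ z < k1 P x, GG P D x ((y * k1 P x + m) * k1 P x + z) =
      fG (TT P D x (m * k1 P x + z)) (TT P D x (z * k1 P x + y)) := by
    intro z hz
    unfold GG pG
    rw [if_pos le_rfl, if_neg (by omega), pair_mod hz]
    have e1 : ((y * k1 P x + m) * k1 P x + z) / k1 P x = y * k1 P x + m := by
      rw [Nat.mul_comm, Nat.mul_add_div k1_pos, Nat.div_eq_of_lt hz, Nat.add_zero]
    rw [e1, pair_mod hm, pair_div hm hy]
  have hTT : ∀ m, 1 ≤ TT P D x m ↔ TT P D x m = 1 := by
    intro m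
    have := TT_le P D x m
    omega
  have hfG : ∀ a b, fG a b ≠ 0 ↔ 1 ≤ a ∧ 1 ≤ b := by
    intro a b
    unfold fG
    split_ifs with h1 h2 <;> simp <;> omega
  unfold HH
  rw [Nat.one_le_iff_ne_zero, Ne, Finset.sum_eq_zero_iff]
  push Not
  constructor
  · rintro ⟨z, hz, h⟩
    have hz' : z < k1 P x := Finset.mem_range.1 hz
    rw [hG z hz', hfG, hTT, hTT] at h
    exact ⟨z, hz', h⟩
  · rintro ⟨z, hz, h⟩
    refine ⟨z, Finset.mem_range.2 hz, ?_⟩
    rw [hG z hz, hfG, hTT, hTT]
    exact h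

open Classical in
theorem φS_pair {y m : ℕ} (hy : y < k1 P x) (hm : m < k1 P x) :
    φS P D x (y * k1 P x + m) = if ∃ z < k1 P x, Tr P D x m z ∧ Tr P D x z y then 1 else 0 := by
  have e1 : (y * k1 P x + m) / k1 P x = y := by
    rw [Nat.mul_comm, Nat.mul_add_div k1_pos, Nat.div_eq_of_lt hm, Nat.add_zero]
  unfold φS
  rw [Finset.sum_range_one, e1, if_pos (by omega)]
  by_cases h : 1 ≤ HH P D x (y * k1 P x + m)
  · rw [if_pos h, if_pos ((HH_pair hy hm).1 h)]
  · rw [if_neg h, if_neg (fun h2 => h ((HH_pair hy hm).2 h2))]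

theorem φS_none {m : ℕ} (hm : m < k1 P x) : φS P D x (k1 P x * k1 P x + m) = 0 := by
  have e1 : (k1 P x * k1 P x + m) / k1 P x = k1 P x := by
    rw [Nat.mul_add_div k1_pos, Nat.div_eq_of_lt hm, Nat.add_zero]
  unfold φS
  rw [Finset.sum_range_one, e1, if_neg (by omega)]

end

theorem selective_core (h : ∀ Y N, PromiseBPL Y N →
    ∃ S : Set (List Bool), (∀ x ∈ Y, x ∈ S) ∧ (∀ x ∈ N, x ∉ S) ∧ LSelective S)
    {Y N : Set (List Bool)} (hYN : PromiseBPL Y N) : PromiseL Y N := by
  classical
  obtain ⟨P, hPY, hPN⟩ := hYN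
  obtain ⟨S, hY, hN, D, hD⟩ := h {z | 2 / 3 ≤ (codedProg (samp P) 0 empty).prob empty z}
    {z | (codedProg (samp P) 0 empty).prob empty z ≤ 1 / 3}
    ⟨codedProg (samp P) 0 empty, fun _ hx => hx, fun _ hx => hx⟩
  refine mono_prob hPY hPN ?_
  refine core P (φS_le P D) (comp_φS P D) (Na := fun n =>
    ((P.bound n + 2) * (P.bound n + 1) ^ P.code.length) * (24 * (P.bound n + 1)) + 1)
    (.add (k1E P) (.const 1)) ?_ (e := dS P + 1) ?_ ?_
  · intro W x A v b
    change (k1E P).eval W x A v b + 1 = _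
    rw [eval_k1E']
  · intro n
    have h1 := kk_le P n
    have h2 : 1 ≤ (n + 2) ^ dS P := Nat.one_le_pow _ _ (by omega)
    rw [pow_succ]
    nlinarith
  · intro x _
    have hY' : ∀ m, 2 / 3 ≤ (samp P).prob (up m) x → zz P x m ∈ S := fun m hm => hY _ (by
      change 2 / 3 ≤ (codedProg (samp P) 0 empty).prob empty (zz P x m)
      rw [zz_prob]
      exact hm)
    have hN' : ∀ m, (samp P).prob (up m) x ≤ 1 / 3 → zz P x m ∉ S := fun m hm => hN _ (by
      change (codedProg (samp P) 0 empty).prob empty (zz P x m) ≤ 1 / 3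
      rw [zz_prob]
      exact hm)
    by_cases hF : ((Finset.range (k1 P x)).filter fun m => zz P x m ∈ S).Nonempty
    · -- the king
      obtain ⟨y, hy, hking⟩ := exists_king
        (fun i j => i < k1 P x → j < k1 P x → Tr P D x i j)
        (fun i hi _ => Tr_refl hi) (fun i j hij => by
          by_cases hb : i < k1 P x ∧ j < k1 P x
          · rcases Tr_total (D := D) hb.1 hb.2 hij with h | h
            · exact Or.inl fun _ _ => h
            · exact Or.inr fun _ _ => h
          · exact Or.inl fun h1 h2 => absurd ⟨h1, h2⟩ hb) _ hF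
      rw [Finset.mem_filter, Finset.mem_range] at hy
      have hval : ∀ m < k1 P x, φS P D x (y * k1 P x + m) = if zz P x m ∈ S then 1 else 0 := by
        intro m hm
        rw [φS_pair hy.1 hm]
        by_cases hmS : zz P x m ∈ S
        · rw [if_pos hmS, if_pos]
          obtain ⟨z, hz, h1, h2⟩ := hking m (Finset.mem_filter.2 ⟨Finset.mem_range.2 hm, hmS⟩)
          rw [Finset.mem_filter, Finset.mem_range] at hz
          exact ⟨z, hz.1, h1 hm hz.1, h2 hz.1 hy.1⟩
        · rw [if_neg hmS, if_neg]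
          rintro ⟨z, hz, h1, h2⟩
          exact hmS (Tr_mem hD hm hz h1 (Tr_mem hD hz hy.1 h2 hy.2))
      refine ⟨y, Nat.lt_succ_of_lt hy.1, fun m hm h1 => ?_, fun m hm h1 => ?_⟩
      · rw [hval m hm, if_pos (hY' m h1)]
      · rw [hval m hm, if_neg (hN' m h1)]
    · -- no instance is in the set
      rw [Finset.not_nonempty_iff_eq_empty, Finset.filter_eq_empty_iff] at hF
      refine ⟨k1 P x, Nat.lt_succ_self _, fun m hm h1 => ?_, fun m hm _ => φS_none hm⟩
      exact absurd (hY' m h1) (hF (Finset.mem_range.2 hm))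

theorem selective_iff : (∀ Y N, PromiseBPL Y N →
    ∃ S : Set (List Bool), (∀ x ∈ Y, x ∈ S) ∧ (∀ x ∈ N, x ∉ S) ∧ LSelective S) ↔
    ∀ Y N, PromiseBPL Y N → PromiseL Y N :=
  ⟨fun h _ _ hYN => selective_core h hYN, fun h Y N hYN => selective_of_promiseL (h Y N hYN)⟩

end Pool.Agent.L0h58.KL
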