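import Pool.Agent.L0h58.KL.Base
import Pool.Agent.L0h58.KL.Core
import Pool.Agent.L0h58.CA.Top

/-!
# Logarithmic advice does not help
-/

set_option autoImplicit false

namespace Pool.Agent.L0h58.KL

open Pool.Agent.L0h58.RL Pool.Agent.L0h58.CA

theorem promiseLAdv_of_promiseL {Y N : Set (List Bool)} (h : PromiseL Y N) : PromiseLAdv Y N := by
  obtain ⟨D, h1, h2⟩ := h
  have key : ∀ x, advOut D 0 x = D.run empty x (fun _ => false) (D.bound x.length) 0 := by
    intro x
    unfold advOut
    have : adv 0 = fun _ => 0 := by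
      funext i
      unfold adv
      split_ifs <;> rfl
    rw [this, from_zero]
  refine ⟨D, fun _ => 0, fun _ => Nat.zero_le _, fun x hx => ?_, fun x hx => ?_⟩
  · rw [key]
    exact h1 x hx
  · rw [key]
    exact not_not.1 (h2 x hx)

theorem zz_prob (P : Prog) (x : List Bool) (m : ℕ) :
    (codedProg (samp P) 0 empty).prob empty (zz P x m) = (samp P).prob (up m) x :=
  codedProg_prob_enc (samp P) 0 empty empty (up m) x fun _ h => absurd h (Nat.not_lt_zero _)

theorem mono_prob {P : Prog} {Y N : Set (List Bool)} (hY : ∀ x ∈ Y, 2 / 3 ≤ P.prob empty x)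
    (hN : ∀ x ∈ N, P.prob empty x ≤ 1 / 3)
    (h : PromiseL {x | 2 / 3 ≤ P.prob empty x} {x | P.prob empty x ≤ 1 / 3}) : PromiseL Y N :=
  PromiseL.mono h hY hN

/-- Advice of logarithmic length can be eliminated. -/
theorem karp_lipton (h : ∀ Y N, PromiseBPL Y N → PromiseLAdv Y N) {Y N : Set (List Bool)}
    (hYN : PromiseBPL Y N) : PromiseL Y N := by
  obtain ⟨P, hPY, hPN⟩ := hYN
  obtain ⟨D, a, ha, hY, hN⟩ := h {z | 2 / 3 ≤ (codedProg (samp P) 0 empty).prob empty z}
    {z | (codedProg (samp P) 0 empty).prob empty z ≤ 1 / 3}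
    ⟨codedProg (samp P) 0 empty, fun _ hx => hx, fun _ hx => hx⟩
  refine mono_prob hPY hPN ?_
  have hF0le : ∀ x m, F0 P D x m ≤ 1 := by
    intro x m
    unfold F0
    split_ifs <;> omega
  refine core P hF0le (comp_base P D)
    (Na := fun n => D.bound (ln P n) + 1) (.add (bdE D.c (lenE (samp P))) (.const 1)) ?_
    (e := ((samp P).c + 3) * (D.c + 1) + 1) ?_ ?_
  · intro W x A v b
    change (bdE D.c (lenE (samp P))).eval W x A v b + 1 = _
    rw [eval_bdE x A v b (lenE (samp P)) D (eval_lenE _ _ _ _ _)]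
    rfl
  · intro n
    have h1 := bound_ln P D n
    have h2 : 1 ≤ (n + 2) ^ (((samp P).c + 3) * (D.c + 1)) := Nat.one_le_pow _ _ (by omega)
    rw [pow_succ]
    nlinarith
  · intro x _
    have hF0 : ∀ m < k1 P x, F0 P D x (a (ln P x.length) * k1 P x + m) =
        if advOut D (a (ln P x.length)) (zz P x m) ≠ 0 then 1 else 0 := by
      intro m hm
      unfold F0
      rw [Nat.add_comm (_ * _), Nat.mul_comm, Nat.add_mul_div_left _ _ k1_pos, Nat.div_eq_of_lt hm,
        Nat.zero_add, Nat.add_mul_mod_self_left, Nat.mod_eq_of_lt hm, min_eq_left (ha _)]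
    refine ⟨a (ln P x.length), Nat.lt_succ_of_le (ha _), fun m hm h1 => ?_, fun m hm h1 => ?_⟩
    · rw [hF0 m hm, if_pos]
      have := hY (zz P x m) (by
        change 2 / 3 ≤ (codedProg (samp P) 0 empty).prob empty (zz P x m)
        rw [zz_prob]
        exact h1)
      rwa [length_zz] at this
    · rw [hF0 m hm, if_neg]
      have := hN (zz P x m) (by
        change (codedProg (samp P) 0 empty).prob empty (zz P x m) ≤ 1 / 3
        rw [zz_prob]
        exact h1)
      rw [length_zz] at this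
      exact not_not.2 this

theorem advice_iff : (∀ Y N, PromiseBPL Y N → PromiseLAdv Y N) ↔
    ∀ Y N, PromiseBPL Y N → PromiseL Y N :=
  ⟨fun h _ _ hYN => karp_lipton h hYN, fun h Y N hYN => promiseLAdv_of_promiseL (h Y N hYN)⟩

end Pool.Agent.L0h58.KL
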